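import Mathlib
import Pool.Agent.NPC.Dec

set_option autoImplicit false

/-!
# The disjoint odd paths problem: definitions
-/

namespace Pool.Agent.Y592.OP

/-- Instances: the list of the vertices, the list of the edges (the ends of each edge; loops and
repeated entries, that is, parallel edges, are allowed), the number `k`, and the sets `X`, `Y`. -/
abbrev Inst : Type := (List ℕ × List (ℕ × ℕ)) × ℕ × (List ℕ × List ℕ)

namespace Inst

/-- The vertices. -/
abbrev V (I : Inst) : List ℕ := I.1.1
/-- The edges; the `i`-th edge is the `i`-th entry of the list. -/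
abbrev E (I : Inst) : List (ℕ × ℕ) := I.1.2
/-- The number of paths asked for. -/
abbrev k (I : Inst) : ℕ := I.2.1
/-- The set `X`. -/
abbrev X (I : Inst) : List ℕ := I.2.2.1
/-- The set `Y`. -/
abbrev Y (I : Inst) : List ℕ := I.2.2.2

/-- The data describe a finite graph, a positive number `k` and two sets of `k` vertices. -/
def Valid (I : Inst) : Prop :=
  I.V.Nodup ∧ (∀ e ∈ I.E, e.1 ∈ I.V ∧ e.2 ∈ I.V) ∧ 1 ≤ I.k ∧
  I.X.Nodup ∧ I.X.length = I.k ∧ (∀ x ∈ I.X, x ∈ I.V) ∧
  I.Y.Nodup ∧ I.Y.length = I.k ∧ (∀ y ∈ I.Y, y ∈ I.V)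

end Inst

/-- The `e`-th edge joins `u` and `v`. -/
def Joins (E : List (ℕ × ℕ)) (e u v : ℕ) : Prop := E[e]? = some (u, v) ∨ E[e]? = some (v, u)

/-- `Walk E vs es`: the edges with the numbers `es` join the consecutive vertices of the
nonempty list `vs`. -/
def Walk (E : List (ℕ × ℕ)) : List ℕ → List ℕ → Prop
  | [], _ => False
  | [_], es => es = []
  | _ :: _ :: _, [] => False
  | u :: v :: vs, e :: es => Joins E e u v ∧ Walk E (v :: vs) es

/-- The internal vertices of a path with the list `vs` of vertices. -/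
abbrev inner (vs : List ℕ) : List ℕ := vs.tail.dropLast

/-- `(p.1, p.2)` are the vertices and the edges of a path of odd length with different vertices
that starts in `X`, ends in `Y` and has no internal vertex in `X` or `Y`. -/
def OddXYPath (I : Inst) (p : List ℕ × List ℕ) : Prop :=
  Walk I.E p.1 p.2 ∧ p.1.Nodup ∧ (∃ x ∈ I.X, p.1.head? = some x) ∧
    (∃ y ∈ I.Y, p.1.getLast? = some y) ∧ (∀ v ∈ inner p.1, v ∉ I.X ∧ v ∉ I.Y) ∧ p.2.length % 2 = 1

/-- The problem ODD-PATHS: `k` different pairwise internally disjoint `(X, Y)`-paths of odd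
length.  (Paths with different edges are different; ends may be shared.) -/
def OddPaths (I : Inst) : Prop :=
  I.Valid ∧ ∃ P : List (List ℕ × List ℕ), P.length = I.k ∧ (∀ p ∈ P, OddXYPath I p) ∧
    P.Pairwise (fun p q => p.2 ≠ q.2 ∧ ∀ v ∈ inner p.1, v ∉ inner q.1)

/-- The variant with disjoint paths: no two of the `k` paths of odd length have a common vertex. -/
def DisjointOddPaths (I : Inst) : Prop :=
  I.Valid ∧ ∃ P : List (List ℕ × List ℕ), P.length = I.k ∧ (∀ p ∈ P, OddXYPath I p) ∧
    P.Pairwise (fun p q => ∀ v ∈ p.1, v ∉ q.1)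

end Pool.Agent.Y592.OP
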