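import Mathlib
import Pool.Agent.Y592.OP.Defs
import Pool.Agent.H601R2.PP

set_option autoImplicit false

/-!
# The disjoint odd paths problem: membership in `NP`
-/

namespace Pool.Agent.Y592.OP

open Pool.Agent.NPC

theorem nodup_iff_zipIdx {β : Type} (l : List β) :
    (∀ x ∈ l.zipIdx, ∀ y ∈ l.zipIdx, x.1 ≠ y.1 ∨ x.2 = y.2) ↔ l.Nodup := by
  rw [List.nodup_iff_injective_getElem]
  constructor
  · intro h i j hij
    have h1 := h (l[i], i.1) (by
      rw [List.mem_zipIdx_iff_getElem?]; simp) (l[j], j.1) (by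
      rw [List.mem_zipIdx_iff_getElem?]; simp)
    simp only at h1 hij
    rcases h1 with h1 | h1
    · exact absurd hij h1
    · exact Fin.ext h1
  · rintro h ⟨x, i⟩ hx ⟨y, j⟩ hy
    rw [List.mem_zipIdx_iff_getElem?] at hx hy
    simp only at hx hy ⊢
    by_cases hxy : x = y
    · right
      obtain ⟨hi, hi'⟩ := List.getElem?_eq_some_iff.1 hx
      obtain ⟨hj, hj'⟩ := List.getElem?_eq_some_iff.1 hy
      have := @h ⟨i, hi⟩ ⟨j, hj⟩ (by simp only; rw [hi', hj', hxy])
      simpa using this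
    · exact Or.inl hxy

theorem pairwise_iff_zipIdx {β : Type} (R : β → β → Prop) (l : List β) :
    (∀ x ∈ l.zipIdx, ∀ y ∈ l.zipIdx, ¬ (x.2 < y.2) ∨ R x.1 y.1) ↔ l.Pairwise R := by
  rw [List.pairwise_iff_getElem]
  constructor
  · intro h i j hi hj hij
    rcases h (l[i], i) (by rw [List.mem_zipIdx_iff_getElem?]; simp) (l[j], j)
      (by rw [List.mem_zipIdx_iff_getElem?]; simp) with h1 | h1
    · exact absurd hij h1
    · exact h1
  · rintro h ⟨x, i⟩ hx ⟨y, j⟩ hy
    rw [List.mem_zipIdx_iff_getElem?] at hx hy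
    simp only at hx hy ⊢
    obtain ⟨hi, hi'⟩ := List.getElem?_eq_some_iff.1 hx
    obtain ⟨hj, hj'⟩ := List.getElem?_eq_some_iff.1 hy
    by_cases hij : i < j
    · right
      have := h i j hi hj hij
      rw [hi', hj'] at this
      exact this
    · exact Or.inl hij

theorem pp_nodup {α β : Type} [TEnc α] [TEnc β] {l : α → List β} (hl : NPC.Poly l) :
    PP (fun a => (l a).Nodup) := by
  refine PP.congr (p := fun a => ∀ x ∈ (l a).zipIdx, ∀ y ∈ (l a).zipIdx, x.1 ≠ y.1 ∨ x.2 = y.2)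
    ?_ (fun a => nodup_iff_zipIdx _)
  refine PP.ball (r := fun a (x : β × ℕ) => ∀ y ∈ (l a).zipIdx, x.1 ≠ y.1 ∨ x.2 = y.2)
    (Poly.zipIdx hl) ?_
  refine PP.ball (l := fun z : α × (β × ℕ) => (l z.1).zipIdx)
    (r := fun (z : α × (β × ℕ)) (y : β × ℕ) => z.2.1 ≠ y.1 ∨ z.2.2 = y.2)
    (Poly.zipIdx (hl.comp (Poly.fst Poly.id))) ?_
  exact PP.or (PP.ne (Poly.fst (Poly.snd (Poly.fst Poly.id))) (Poly.fst (Poly.snd Poly.id)))
    (PP.eq (Poly.snd (Poly.snd (Poly.fst Poly.id))) (Poly.snd (Poly.snd Poly.id)))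

theorem pp_pairwise {α β : Type} [TEnc α] [TEnc β] {l : α → List β} {R : β → β → Prop}
    (hl : NPC.Poly l) (hR : PP (fun x : β × β => R x.1 x.2)) :
    PP (fun a => (l a).Pairwise R) := by
  refine PP.congr (p := fun a => ∀ x ∈ (l a).zipIdx, ∀ y ∈ (l a).zipIdx,
    ¬ (x.2 < y.2) ∨ R x.1 y.1) ?_ (fun a => pairwise_iff_zipIdx R _)
  refine PP.ball (r := fun a (x : β × ℕ) => ∀ y ∈ (l a).zipIdx, ¬ (x.2 < y.2) ∨ R x.1 y.1)
    (Poly.zipIdx hl) ?_
  refine PP.ball (l := fun z : α × (β × ℕ) => (l z.1).zipIdx)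
    (r := fun (z : α × (β × ℕ)) (y : β × ℕ) => ¬ (z.2.2 < y.2) ∨ R z.2.1 y.1)
    (Poly.zipIdx (hl.comp (Poly.fst Poly.id))) ?_
  refine PP.or (PP.not (PP.lt (Poly.snd (Poly.snd (Poly.fst Poly.id)))
    (Poly.snd (Poly.snd Poly.id)))) ?_
  exact hR.comp (f := fun x : (α × (β × ℕ)) × (β × ℕ) => (x.1.2.1, x.2.1))
    (Poly.pair (Poly.fst (Poly.snd (Poly.fst Poly.id))) (Poly.fst (Poly.snd Poly.id)))

/-- A test for walks without recursion. -/
theorem walk_iff (E : List (ℕ × ℕ)) : ∀ vs es : List ℕ, Walk E vs es ↔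
    (vs.length = es.length + 1 ∧ ∀ p ∈ (vs.zip vs.tail).zip es,
      (E[p.2]? = some (p.1.1, p.1.2) ∨ E[p.2]? = some (p.1.2, p.1.1)))
  | [], es => by simp [Walk]
  | [v], es => by
    simp only [Walk, List.length_singleton, List.tail_cons, List.zip_nil_right, List.zip_nil_left,
      List.not_mem_nil, false_implies, implies_true, and_true]
    constructor
    · rintro rfl; rfl
    · intro h
      exact List.eq_nil_of_length_eq_zero (by omega)
  | u :: v :: vs, [] => by simp [Walk]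
  | u :: v :: vs, e :: es => by
    rw [Walk, walk_iff E (v :: vs) es]
    simp only [List.length_cons, List.tail_cons, List.zip_cons_cons, List.forall_mem_cons, Joins]
    constructor
    · rintro ⟨h1, h2, h3⟩
      exact ⟨by omega, h1, h3⟩
    · rintro ⟨h1, h2, h3⟩
      exact ⟨h2, by omega, h3⟩

theorem dropLast_poly {α β : Type} [TEnc α] [TEnc β] {l : α → List β} (hl : NPC.Poly l) :
    NPC.Poly (fun a => (l a).dropLast) := by
  refine (NPC.Poly.reverse (NPC.Poly.tail (NPC.Poly.reverse hl))).congr ?_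
  intro a
  simp

theorem inner_poly {α : Type} [TEnc α] {l : α → List ℕ} (hl : NPC.Poly l) :
    NPC.Poly (fun a => inner (l a)) := dropLast_poly (NPC.Poly.tail hl)

theorem getLast?_poly {α β : Type} [TEnc α] [TEnc β] {l : α → List β} (hl : NPC.Poly l) :
    NPC.Poly (fun a => (l a).getLast?) := by
  refine (NPC.Poly.head? (NPC.Poly.reverse hl)).congr ?_
  intro a
  simp

theorem pp_walk : PP (fun x : List (ℕ × ℕ) × (List ℕ × List ℕ) => Walk x.1 x.2.1 x.2.2) := by
  refine PP.congr (p := fun x : List (ℕ × ℕ) × (List ℕ × List ℕ) =>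
    (x.2.1.length = x.2.2.length + 1 ∧ ∀ p ∈ (x.2.1.zip x.2.1.tail).zip x.2.2,
      (x.1[p.2]? = some (p.1.1, p.1.2) ∨ x.1[p.2]? = some (p.1.2, p.1.1)))) ?_
    (fun x => (walk_iff x.1 x.2.1 x.2.2).symm)
  refine PP.and (PP.eq (by fun_prop) (by fun_prop)) ?_
  refine PP.ball (l := fun x : List (ℕ × ℕ) × (List ℕ × List ℕ) =>
    (x.2.1.zip x.2.1.tail).zip x.2.2)
    (r := fun x p => x.1[p.2]? = some (p.1.1, p.1.2) ∨ x.1[p.2]? = some (p.1.2, p.1.1))
    (by fun_prop) ?_
  refine PP.or (PP.eq ?_ ?_) (PP.eq ?_ ?_)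
  · exact NPC.Poly.getElem? (by fun_prop) (by fun_prop)
  · fun_prop
  · exact NPC.Poly.getElem? (by fun_prop) (by fun_prop)
  · fun_prop

theorem pp_valid : PP Inst.Valid := by
  unfold Inst.Valid Inst.V Inst.E Inst.k Inst.X Inst.Y
  have hsub : ∀ {α : Type} [TEnc α] {l l' : α → List ℕ}, NPC.Poly l → NPC.Poly l' →
      PP (fun a => ∀ x ∈ l a, x ∈ l' a) := fun hl hl' =>
    PP.ball (r := fun a x => x ∈ _) hl (PP.mem (Poly.snd Poly.id) (hl'.comp (Poly.fst Poly.id)))
  refine PP.and (pp_nodup (by fun_prop)) (PP.and ?_ (PP.and (PP.le (by fun_prop) (by fun_prop))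
    (PP.and (pp_nodup (by fun_prop)) (PP.and (PP.eq (by fun_prop) (by fun_prop))
    (PP.and (hsub (by fun_prop) (by fun_prop)) (PP.and (pp_nodup (by fun_prop))
    (PP.and (PP.eq (by fun_prop) (by fun_prop)) (hsub (by fun_prop) (by fun_prop)))))))))
  refine PP.ball (l := fun I : Inst => I.1.2) (r := fun I e => e.1 ∈ I.1.1 ∧ e.2 ∈ I.1.1)
    (by fun_prop) ?_
  exact PP.and (PP.mem (by fun_prop) (by fun_prop)) (PP.mem (by fun_prop) (by fun_prop))

theorem pp_path : PP (fun x : Inst × (List ℕ × List ℕ) => OddXYPath x.1 x.2) := by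
  unfold OddXYPath Inst.E Inst.X Inst.Y
  refine PP.and ?_ (PP.and (pp_nodup (by fun_prop)) (PP.and ?_ (PP.and ?_ (PP.and ?_
    (PP.eq ?_ ?_)))))
  · exact pp_walk.comp (f := fun x : Inst × (List ℕ × List ℕ) => (x.1.1.2, x.2)) (by fun_prop)
  · refine PP.bex (l := fun x : Inst × (List ℕ × List ℕ) => x.1.2.2.1)
      (r := fun x v => x.2.1.head? = some v) (by fun_prop) (PP.eq ?_ (by fun_prop))
    exact NPC.Poly.head? (by fun_prop)
  · refine PP.bex (l := fun x : Inst × (List ℕ × List ℕ) => x.1.2.2.2)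
      (r := fun x v => x.2.1.getLast? = some v) (by fun_prop) (PP.eq ?_ (by fun_prop))
    exact getLast?_poly (by fun_prop)
  · refine PP.ball (l := fun x : Inst × (List ℕ × List ℕ) => inner x.2.1)
      (r := fun x v => v ∉ x.1.2.2.1 ∧ v ∉ x.1.2.2.2) (inner_poly (by fun_prop)) ?_
    exact PP.and (PP.not (PP.mem (by fun_prop) (by fun_prop)))
      (PP.not (PP.mem (by fun_prop) (by fun_prop)))
  · exact NPC.Poly.mod (NPC.Poly.length (by fun_prop)) (NPC.Poly.const 2)
  · exact NPC.Poly.const 1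

theorem pp_cert {R : (List ℕ × List ℕ) → (List ℕ × List ℕ) → Prop}
    (hR : PP (fun x : (List ℕ × List ℕ) × (List ℕ × List ℕ) => R x.1 x.2)) :
    PP (fun x : Inst × List (List ℕ × List ℕ) => x.1.Valid ∧ x.2.length = x.1.k ∧
      (∀ p ∈ x.2, OddXYPath x.1 p) ∧ x.2.Pairwise R) := by
  refine PP.and (pp_valid.comp (by fun_prop)) (PP.and (PP.eq (by fun_prop) ?_)
    (PP.and ?_ (pp_pairwise (by fun_prop) hR)))
  · unfold Inst.k
    fun_prop
  · refine PP.ball (l := fun x : Inst × List (List ℕ × List ℕ) => x.2)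
      (r := fun x p => OddXYPath x.1 p) (by fun_prop) ?_
    exact pp_path.comp (f := fun x : (Inst × List (List ℕ × List ℕ)) × (List ℕ × List ℕ) =>
      (x.1.1, x.2)) (by fun_prop)

theorem sz_le_of_le {k s : ℕ} (h : k ≤ s) : sz k ≤ 4 * s + 1 := by
  have h1 := sz_nat_le k
  have h2 := Poly.size_le_self k
  omega

/-- The vertices of a walk with at least one edge belong to the graph, the numbers of the edges
are small. -/
theorem walk_mem {I : Inst} (hV : I.Valid) : ∀ (vs es : List ℕ), Walk I.E vs es →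
    vs.head? ∈ (I.V.map some) → (∀ v ∈ vs, v ∈ I.V) ∧ (∀ e ∈ es, e < I.E.length)
  | [], es, h, _ => absurd h (by simp [Walk])
  | [v], es, h, hv => by
    simp only [Walk] at h
    subst h
    simp only [List.head?_cons, List.mem_map, Option.some.injEq, exists_eq_right] at hv
    simp [hv]
  | u :: v :: vs, [], h, _ => absurd h (by simp [Walk])
  | u :: v :: vs, e :: es, h, hu => by
    rw [Walk] at h
    obtain ⟨h1, h2⟩ := h
    have h3 : v ∈ I.V ∧ e < I.E.length := by
      rcases h1 with h1 | h1 <;> obtain ⟨g1, g2⟩ := List.getElem?_eq_some_iff.1 h1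
      · have := (hV.2.1 _ (List.getElem_mem g1)).2
        rw [g2] at this
        exact ⟨this, g1⟩
      · have := (hV.2.1 _ (List.getElem_mem g1)).1
        rw [g2] at this
        exact ⟨this, g1⟩
    have ih := walk_mem hV (v :: vs) es h2 (by simp [h3.1])
    simp only [List.head?_cons, List.mem_map, Option.some.injEq, exists_eq_right] at hu
    exact ⟨by rw [List.forall_mem_cons]; exact ⟨hu, ih.1⟩,
      by rw [List.forall_mem_cons]; exact ⟨h3.2, ih.2⟩⟩

theorem walk_length {E : List (ℕ × ℕ)} {vs es : List ℕ} (h : Walk E vs es) :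
    vs.length = es.length + 1 := ((walk_iff E vs es).1 h).1

/-- Certificates are short. -/
theorem cert_short {I : Inst} {P : List (List ℕ × List ℕ)} (hV : I.Valid) (hk : P.length = I.k)
    (hP : ∀ p ∈ P, OddXYPath I p) :
    sz P ≤ (Polynomial.X * ((Polynomial.X * (Polynomial.X + 1) + 1) +
      (Polynomial.X * (4 * Polynomial.X + 2) + 1) + 2) + 1 : Polynomial ℕ).eval (sz I) := by
  have hsz : sz I = sz I.V + sz I.E + sz I.k + sz I.X + sz I.Y + 4 := by
    obtain ⟨⟨V, E⟩, k, X, Y⟩ := I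
    simp only [sz_pair, Inst.V, Inst.E, Inst.k, Inst.X, Inst.Y]
    omega
  have hVl : I.V.length < sz I.V := length_lt_sz I.V
  have hEl : I.E.length < sz I.E := length_lt_sz I.E
  have hXl : I.X.length < sz I.X := length_lt_sz I.X
  have hkX : I.X.length = I.k := hV.2.2.2.2.1
  set s := sz I with hs
  have h1 : ∀ p ∈ P, sz p ≤ (s * (s + 1) + 1) + (s * (4 * s + 2) + 1) + 1 := by
    intro p hp
    obtain ⟨g1, g2, ⟨x, hx, g3⟩, -, -, -⟩ := hP p hp
    have hxV : x ∈ I.V := hV.2.2.2.2.2.1 x hx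
    obtain ⟨m1, m2⟩ := walk_mem hV p.1 p.2 g1 (by rw [g3]; simp [hxV])
    have l1 : p.1.length ≤ I.V.length := by
      refine (List.Subperm.length_le (g2.subperm ?_))
      intro v hv
      exact m1 v hv
    have l2 := walk_length g1
    have b1 : sz p.1 ≤ p.1.length * (s + 1) + 1 := by
      refine sz_le_length_mul _ _ fun v hv => ?_
      have := sz_le_of_mem (m1 v hv)
      omega
    have b2 : sz p.2 ≤ p.2.length * (4 * s + 1 + 1) + 1 := by
      refine sz_le_length_mul _ _ fun e he => ?_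
      have := m2 e he
      exact sz_le_of_le (by omega)
    have b3 : p.1.length * (s + 1) ≤ s * (s + 1) := Nat.mul_le_mul_right _ (by omega)
    have b4 : p.2.length * (4 * s + 1 + 1) ≤ s * (4 * s + 2) := Nat.mul_le_mul (by omega) (by omega)
    obtain ⟨p1, p2⟩ := p
    rw [sz_pair]
    simp only at b1 b2 b3 b4
    omega
  have h2 := sz_le_length_mul P _ h1
  have h3 : P.length * ((s * (s + 1) + 1) + (s * (4 * s + 2) + 1) + 1 + 1) ≤
      s * ((s * (s + 1) + 1) + (s * (4 * s + 2) + 1) + 2) :=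
    Nat.mul_le_mul (by omega) (by omega)
  simp only [Polynomial.eval_add, Polynomial.eval_mul, Polynomial.eval_X,
    Polynomial.eval_one, Polynomial.eval_ofNat]
  omega

theorem inNPP_of_pairwise {R : (List ℕ × List ℕ) → (List ℕ × List ℕ) → Prop}
    (hR : PP (fun x : (List ℕ × List ℕ) × (List ℕ × List ℕ) => R x.1 x.2)) :
    InNPP (fun I : Inst => I.Valid ∧ ∃ P : List (List ℕ × List ℕ), P.length = I.k ∧
      (∀ p ∈ P, OddXYPath I p) ∧ P.Pairwise R) := by
  obtain ⟨b, hb, hb'⟩ := pp_cert hR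
  refine inNPP_of (β := List (List ℕ × List ℕ)) hb
    (Polynomial.X * ((Polynomial.X * (Polynomial.X + 1) + 1) +
      (Polynomial.X * (4 * Polynomial.X + 2) + 1) + 2) + 1) (fun I => ⟨?_, ?_⟩)
  · rintro ⟨hV, P, h1, h2, h3⟩
    exact ⟨P, cert_short hV h1 h2, (hb' (I, P)).2 ⟨hV, h1, h2, h3⟩⟩
  · rintro ⟨P, -, hR⟩
    obtain ⟨hV, h1, h2, h3⟩ := (hb' (I, P)).1 hR
    exact ⟨hV, P, h1, h2, h3⟩

/-- ODD-PATHS is in `NP`. -/
theorem inNPP_oddPaths : InNPP OddPaths := by
  refine inNPP_of_pairwise (R := fun p q => p.2 ≠ q.2 ∧ ∀ v ∈ inner p.1, v ∉ inner q.1) ?_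
  refine PP.and (PP.ne (by fun_prop) (by fun_prop)) ?_
  refine PP.ball (l := fun x : (List ℕ × List ℕ) × (List ℕ × List ℕ) => inner x.1.1)
    (r := fun x v => v ∉ inner x.2.1) (inner_poly (by fun_prop)) ?_
  exact PP.not (PP.mem (by fun_prop) (inner_poly (by fun_prop)))

/-- The variant with disjoint paths is in `NP`. -/
theorem inNPP_disjointOddPaths : InNPP DisjointOddPaths := by
  refine inNPP_of_pairwise (R := fun p q => ∀ v ∈ p.1, v ∉ q.1) ?_
  refine PP.ball (l := fun x : (List ℕ × List ℕ) × (List ℕ × List ℕ) => x.1.1)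
    (r := fun x v => v ∉ x.2.1) (by fun_prop) ?_
  exact PP.not (PP.mem (by fun_prop) (by fun_prop))

end Pool.Agent.Y592.OP
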