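import Mathlib
import Pool.Agent.NPC.Sat2
import Pool.Agent.Y592.OP.Defs

set_option autoImplicit false

/-!
# The disjoint odd paths problem: the reduction from 3SAT
-/

namespace Pool.Agent.Y592.OP

open Pool.Agent.NPC

abbrev F3 : Type := List (Lit ℕ × Lit ℕ × Lit ℕ)

/-- The number of occurrences of literals. -/
def M (φ : F3) : ℕ := 3 * φ.length

/-- The number of tokens. -/
def T (φ : F3) : ℕ := 2 * (M φ * M φ)

/-- The next token of the cycle. -/
def nxt (m i : ℕ) : ℕ := if (i + 1) % (2 * m) = 0 then i + 1 - 2 * m else i + 1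

/-- The literal with number `k`. -/
def lit (φ : F3) (k : ℕ) : Lit ℕ :=
  if k % 3 = 0 then (φ.getD (k / 3) ((false, 0), (false, 0), (false, 0))).1
  else if k % 3 = 1 then (φ.getD (k / 3) ((false, 0), (false, 0), (false, 0))).2.1
  else (φ.getD (k / 3) ((false, 0), (false, 0), (false, 0))).2.2

/-- The token of the literal with number `k`. -/
def pos (φ : F3) (k : ℕ) : ℕ :=
  (lit φ k).2 * (2 * M φ) + (2 * k + (if (lit φ k).1 = true then 0 else 1))

/-- Which token may leave at which exit. -/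
def adj (φ : F3) (i j : ℕ) : Prop :=
  φ.length ≤ j ∨ i = pos φ (3 * j) ∨ i = pos φ (3 * j + 1) ∨ i = pos φ (3 * j + 2)

instance (φ : F3) (i j : ℕ) : Decidable (adj φ i j) := by unfold adj; infer_instance

/-- The edges at the token `i`. -/
def edgesAt (φ : F3) (i : ℕ) : List (ℕ × ℕ) :=
  (if i % 2 = 0 then [(7 * i, 7 * i + 2)] else [(7 * i, 7 * i + 1), (7 * i + 1, 7 * i + 2)]) ++
  ([(7 * i + 2, 7 * i + 3), (7 * i + 2, 7 * nxt (M φ) i + 3)] ++
  ((if i < M φ * M φ then [(7 * i + 4, 7 * i + 5), (7 * i + 5, 7 * i + 6)]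
    else [(7 * i + 4, 7 * i + 6)]) ++
  ((List.range (T φ)).filter (fun j => decide (adj φ i j))).map
    (fun j => (7 * i + 3, 7 * j + 4))))

/-- All edges. -/
def edges (φ : F3) : List (ℕ × ℕ) := (List.range (T φ)).flatMap (edgesAt φ)

/-- The reduction. -/
def red (φ : F3) : Inst :=
  ((List.range (7 * T φ), edges φ), T φ,
    ((List.range (T φ)).map (fun i => 7 * i), (List.range (T φ)).map (fun i => 7 * i + 6)))

theorem mem_edgesAt {φ : F3} {i u v : ℕ} : (u, v) ∈ edgesAt φ i ↔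
    (i % 2 = 0 ∧ u = 7 * i ∧ v = 7 * i + 2) ∨
    (i % 2 = 1 ∧ u = 7 * i ∧ v = 7 * i + 1) ∨
    (i % 2 = 1 ∧ u = 7 * i + 1 ∧ v = 7 * i + 2) ∨
    (u = 7 * i + 2 ∧ v = 7 * i + 3) ∨
    (u = 7 * i + 2 ∧ v = 7 * nxt (M φ) i + 3) ∨
    (i < M φ * M φ ∧ u = 7 * i + 4 ∧ v = 7 * i + 5) ∨
    (i < M φ * M φ ∧ u = 7 * i + 5 ∧ v = 7 * i + 6) ∨
    (M φ * M φ ≤ i ∧ u = 7 * i + 4 ∧ v = 7 * i + 6) ∨
    (∃ j < T φ, adj φ i j ∧ u = 7 * i + 3 ∧ v = 7 * j + 4) := by
  unfold edgesAt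
  have h4 : (u, v) ∈ ((List.range (T φ)).filter (fun j => decide (adj φ i j))).map
      (fun j => (7 * i + 3, 7 * j + 4)) ↔
      ∃ j < T φ, adj φ i j ∧ u = 7 * i + 3 ∧ v = 7 * j + 4 := by
    simp only [List.mem_map, List.mem_filter, List.mem_range, decide_eq_true_eq, Prod.mk.injEq]
    constructor
    · rintro ⟨j, ⟨h1, h2⟩, h3, h4⟩
      exact ⟨j, h1, h2, h3.symm, h4.symm⟩
    · rintro ⟨j, h1, h2, h3, h4⟩
      exact ⟨j, ⟨h1, h2⟩, h3.symm, h4.symm⟩
  rw [List.mem_append, List.mem_append, List.mem_append, h4]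
  have h1 : (u, v) ∈ (if i % 2 = 0 then [(7 * i, 7 * i + 2)] else
      [(7 * i, 7 * i + 1), (7 * i + 1, 7 * i + 2)]) ↔
      (i % 2 = 0 ∧ u = 7 * i ∧ v = 7 * i + 2) ∨
    (i % 2 = 1 ∧ u = 7 * i ∧ v = 7 * i + 1) ∨
    (i % 2 = 1 ∧ u = 7 * i + 1 ∧ v = 7 * i + 2) := by
    split_ifs with h
    · simp [h]
    · have : i % 2 = 1 := by omega
      simp [this]
  have h3 : (u, v) ∈ (if i < M φ * M φ then [(7 * i + 4, 7 * i + 5), (7 * i + 5, 7 * i + 6)]
      else [(7 * i + 4, 7 * i + 6)]) ↔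
      (i < M φ * M φ ∧ u = 7 * i + 4 ∧ v = 7 * i + 5) ∨
    (i < M φ * M φ ∧ u = 7 * i + 5 ∧ v = 7 * i + 6) ∨
    (M φ * M φ ≤ i ∧ u = 7 * i + 4 ∧ v = 7 * i + 6) := by
    split_ifs with h
    · simp [h, not_le.2 h]
    · simp [h, not_lt.1 h]
  rw [h1, h3]
  simp only [List.mem_cons, Prod.mk.injEq, List.not_mem_nil, or_false, or_assoc]

theorem mem_edges {φ : F3} {u v : ℕ} : (u, v) ∈ edges φ ↔
    ∃ i < T φ, (u, v) ∈ edgesAt φ i := by
  simp [edges, List.mem_flatMap]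

/-- Adjacency. -/
def Adj (φ : F3) (u v : ℕ) : Prop := (u, v) ∈ edges φ ∨ (v, u) ∈ edges φ

theorem Adj.symm {φ : F3} {u v : ℕ} (h : Adj φ u v) : Adj φ v u := Or.symm h

theorem Joins.adj {φ : F3} {e u v : ℕ} (h : Joins (edges φ) e u v) : Adj φ u v := by
  rcases h with h | h
  · exact Or.inl (List.mem_of_getElem? h)
  · exact Or.inr (List.mem_of_getElem? h)

theorem Adj.exists_joins {φ : F3} {u v : ℕ} (h : Adj φ u v) : ∃ e, Joins (edges φ) e u v := by
  rcases h with h | h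
  · obtain ⟨e, he⟩ := List.mem_iff_getElem?.1 h
    exact ⟨e, Or.inl he⟩
  · obtain ⟨e, he⟩ := List.mem_iff_getElem?.1 h
    exact ⟨e, Or.inr he⟩

section

variable {φ : F3}

theorem nxt_lt (m : ℕ) {i t : ℕ} (hm : 0 < m) (hi : i < 2 * m * t) : nxt m i < 2 * m * t := by
  unfold nxt
  split_ifs with h
  · omega
  · obtain ⟨c, hc⟩ : ∃ c, c = 2 * m := ⟨_, rfl⟩
    rw [← hc] at h hi ⊢
    by_contra hlt
    have : i + 1 = c * t := by omega
    rw [this] at h
    simp at h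

theorem T_eq (φ : F3) : T φ = 2 * M φ * M φ := by unfold T; ring

theorem nxt_lt_T {i : ℕ} (hi : i < T φ) : nxt (M φ) i < T φ := by
  have hM : 0 < M φ := by
    rcases Nat.eq_zero_or_pos (M φ) with h | h
    · unfold T at hi
      rw [h] at hi
      omega
    · exact h
  rw [T_eq] at hi ⊢
  exact nxt_lt _ hM hi

/-- Kinds of adjacent vertices. -/
theorem adj_kind {u v : ℕ} (h : Adj φ u v) {c : ℕ} (hc : c = 2 ∨ c = 3 ∨ c = 4)
    (hu : u % 7 < c) : v % 7 ≤ c := by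
  rcases h with h | h <;>
  · rw [mem_edges] at h
    obtain ⟨i, hi, h⟩ := h
    rw [mem_edgesAt] at h
    rcases h with h | h | h | h | h | h | h | h | ⟨j, hj, hij, h⟩ <;> omega

theorem adj_lt {u v : ℕ} (h : Adj φ u v) : u < 7 * T φ := by
  rcases h with h | h <;>
  · rw [mem_edges] at h
    obtain ⟨i, hi, h⟩ := h
    have := nxt_lt_T hi
    rw [mem_edgesAt] at h
    rcases h with h | h | h | h | h | h | h | h | ⟨j, hj, hij, h⟩ <;> omega

theorem nb0 {i w : ℕ} (h : Adj φ (7 * i) w) : (i % 2 = 0 ∧ w = 7 * i + 2) ∨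
    (i % 2 = 1 ∧ w = 7 * i + 1) := by
  rcases h with h | h <;>
  · rw [mem_edges] at h
    obtain ⟨i', hi, h⟩ := h
    rw [mem_edgesAt] at h
    rcases h with h | h | h | h | h | h | h | h | ⟨j, hj, hij, h⟩ <;> omega

theorem nb1 {i w : ℕ} (h : Adj φ (7 * i + 1) w) : i % 2 = 1 ∧ (w = 7 * i ∨ w = 7 * i + 2) := by
  rcases h with h | h <;>
  · rw [mem_edges] at h
    obtain ⟨i', hi, h⟩ := h
    rw [mem_edgesAt] at h
    rcases h with h | h | h | h | h | h | h | h | ⟨j, hj, hij, h⟩ <;> omega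

theorem nb2 {i w : ℕ} (h : Adj φ (7 * i + 2) w) : (i % 2 = 0 ∧ w = 7 * i) ∨
    (i % 2 = 1 ∧ w = 7 * i + 1) ∨ w = 7 * i + 3 ∨ w = 7 * nxt (M φ) i + 3 := by
  rcases h with h | h <;>
  · rw [mem_edges] at h
    obtain ⟨i', hi, h⟩ := h
    rw [mem_edgesAt] at h
    rcases h with h | h | h | h | h | h | h | h | ⟨j, hj, hij, h⟩
    all_goals first
      | omega
      | (have : i' = i := by omega
         subst this
         omega)

theorem nb3 {i w : ℕ} (h : Adj φ (7 * i + 3) w) : w % 7 = 2 ∨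
    ∃ j < T φ, adj φ i j ∧ w = 7 * j + 4 := by
  rcases h with h | h <;>
  · rw [mem_edges] at h
    obtain ⟨i', hi, h⟩ := h
    rw [mem_edgesAt] at h
    rcases h with h | h | h | h | h | h | h | h | ⟨j, hj, hij, h⟩
    all_goals first
      | omega
      | (right
         have : i' = i := by omega
         subst this
         exact ⟨j, hj, hij, by omega⟩)

theorem nb4 {j w : ℕ} (h : Adj φ (7 * j + 4) w) : w % 7 = 3 ∨
    (j < M φ * M φ ∧ w = 7 * j + 5) ∨ (M φ * M φ ≤ j ∧ w = 7 * j + 6) := by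
  rcases h with h | h <;>
  · rw [mem_edges] at h
    obtain ⟨i', hi, h⟩ := h
    rw [mem_edgesAt] at h
    rcases h with h | h | h | h | h | h | h | h | ⟨j, hj, hij, h⟩ <;> omega

theorem nb5 {j w : ℕ} (h : Adj φ (7 * j + 5) w) : w = 7 * j + 4 ∨ w = 7 * j + 6 := by
  rcases h with h | h <;>
  · rw [mem_edges] at h
    obtain ⟨i', hi, h⟩ := h
    rw [mem_edgesAt] at h
    rcases h with h | h | h | h | h | h | h | h | ⟨j, hj, hij, h⟩ <;> omega

end

end Pool.Agent.Y592.OP
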