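import Mathlib
import Pool.Agent.Y592.OP.Red

set_option autoImplicit false

/-!
# The disjoint odd paths problem: the shape of the paths
-/

namespace Pool.Agent.Y592.OP

open Pool.Agent.NPC

variable {φ : F3}

theorem mem_inner {vs : List ℕ} {v : ℕ} (hv : v ∈ vs) (h1 : vs.head? ≠ some v)
    (h2 : vs.getLast? ≠ some v) : v ∈ inner vs := by
  unfold inner
  cases vs with
  | nil => simp at hv
  | cons a l =>
    simp only [List.head?_cons, ne_eq, Option.some.injEq] at h1
    rcases List.mem_cons.1 hv with h | h
    · exact absurd h.symm h1
    · rw [List.tail_cons]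
      have hl : l ≠ [] := List.ne_nil_of_mem h
      have e := List.dropLast_append_getLast hl
      rw [← e, List.mem_append, List.mem_singleton] at h
      rcases h with h | h
      · exact h
      · exfalso
        apply h2
        rw [List.getLast?_cons, List.getLast?_eq_getLast_of_ne_nil hl]
        simp [h]

/-- A walk from kinds less than `c` to kinds greater than `c` visits a vertex of kind `c`. -/
theorem exists_kind {c : ℕ} (hc : c = 2 ∨ c = 3 ∨ c = 4) : ∀ (vs es : List ℕ) (a b : ℕ),
    Walk (edges φ) vs es → vs.head? = some a → vs.getLast? = some b → a % 7 < c → c < b % 7 →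
    ∃ v ∈ vs, v % 7 = c
  | [], _, _, _, h, _, _, _, _ => h.elim
  | [u], _, a, b, _, h1, h2, h3, h4 => by
    simp only [List.head?_cons, Option.some.injEq, List.getLast?_singleton] at h1 h2
    omega
  | _ :: _ :: _, [], _, _, h, _, _, _, _ => h.elim
  | u :: v :: vs, e :: es, a, b, h, h1, h2, h3, h4 => by
    simp only [List.head?_cons, Option.some.injEq] at h1
    subst h1
    have hk := adj_kind h.1.adj hc h3
    rcases Nat.lt_or_ge (v % 7) c with hv | hv
    · obtain ⟨w, hw, hwc⟩ := exists_kind hc (v :: vs) es v b h.2 rfl
        (by simpa [List.getLast?_cons_cons] using h2) hv h4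
      exact ⟨w, List.mem_cons_of_mem _ hw, hwc⟩
    · exact ⟨v, by simp, by omega⟩

theorem walk_lt : ∀ (vs es : List ℕ), Walk (edges φ) vs es → 2 ≤ vs.length →
    ∀ v ∈ vs, v < 7 * T φ
  | [], _, h, _ => h.elim
  | [_], _, _, h => by simp at h
  | _ :: _ :: _, [], h, _ => h.elim
  | [u, v], e :: es, h, _ => by
    intro w hw
    simp only [List.mem_cons, List.not_mem_nil, or_false] at hw
    rcases hw with rfl | rfl
    · exact adj_lt h.1.adj
    · exact adj_lt h.1.adj.symm
  | u :: v :: x :: vs, e :: es, h, _ => by
    intro w hw
    rcases List.mem_cons.1 hw with rfl | hw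
    · exact adj_lt h.1.adj
    · exact walk_lt (v :: x :: vs) es h.2 (by simp) w hw

/-- The part of a path after the vertex of kind 2. -/
theorem shape_tail {i : ℕ} {pre tl es : List ℕ} (hpre : pre ≠ [])
    (hw : Walk (edges φ) ((7 * i + 2) :: tl) es)
    (hnd : (pre ++ (7 * i + 2) :: tl).Nodup)
    (h0 : i % 2 = 0 → 7 * i ∈ pre) (h1 : i % 2 = 1 → 7 * i + 1 ∈ pre)
    (hi : i < T φ)
    (hlast : ∃ j < T φ, (pre ++ (7 * i + 2) :: tl).getLast? = some (7 * j + 6))
    (hin : ∀ v ∈ inner (pre ++ (7 * i + 2) :: tl), v % 7 ≠ 6)
    (hun : ∀ v ∈ inner (pre ++ (7 * i + 2) :: tl), ∀ w ∈ inner (pre ++ (7 * i + 2) :: tl),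
      v % 7 = w % 7 → (v % 7 = 2 ∨ v % 7 = 3 ∨ v % 7 = 4) → v = w) :
    ∃ i' j, i' < T φ ∧ j < T φ ∧ (i' = i ∨ i' = nxt (M φ) i) ∧ adj φ i' j ∧
      7 * i + 2 ∈ inner (pre ++ (7 * i + 2) :: tl) ∧
      7 * i' + 3 ∈ inner (pre ++ (7 * i + 2) :: tl) ∧
      7 * j + 4 ∈ inner (pre ++ (7 * i + 2) :: tl) ∧
      es.length = 2 + (if j < M φ * M φ then 2 else 1) := by
  obtain ⟨j', hj', hlast⟩ := hlast
  set vs := pre ++ (7 * i + 2) :: tl with hvs
  -- heads
  have hhd : ∀ v, v ∈ (7 * i + 2) :: tl → vs.head? ≠ some v := by
    intro v hv hh
    cases pre with
    | nil => exact hpre rfl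
    | cons a pre =>
      simp only [hvs, List.cons_append, List.head?_cons, Option.some.injEq] at hh
      subst hh
      rw [hvs, List.nodup_append] at hnd
      exact hnd.2.2 a (by simp) a hv rfl
  have hnot : ∀ v ∈ (7 * i + 2) :: tl, v ∉ pre := by
    intro v hv hv'
    rw [hvs, List.nodup_append] at hnd
    exact hnd.2.2 v hv' v hv rfl
  have hinn : ∀ v, v ∈ (7 * i + 2) :: tl → v % 7 ≠ 6 → v ∈ inner vs := by
    intro v hv h6
    refine mem_inner ?_ (hhd v hv) ?_
    · rw [hvs]; exact List.mem_append_right _ hv
    · rw [hlast]
      intro h
      rw [Option.some.injEq] at h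
      omega
  have hndt : ((7 * i + 2) :: tl).Nodup := (List.nodup_append.1 hnd).2.1
  have ha : 7 * i + 2 ∈ inner vs := hinn _ (by simp) (by omega)
  -- the last element is the last element of the tail
  have hlast' : ((7 * i + 2) :: tl).getLast? = some (7 * j' + 6) := by
    rw [hvs, List.getLast?_append] at hlast
    cases h : ((7 * i + 2) :: tl).getLast? with
    | none => simp at h
    | some x => rw [h] at hlast; simpa using hlast
  cases tl with
  | nil =>
    simp only [List.getLast?_singleton, Option.some.injEq] at hlast'
    omega
  | cons b tl =>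
    cases es with
    | nil => exact hw.elim
    | cons e1 es =>
    obtain ⟨hw1, hw⟩ := hw
    have hbtl : b ∈ (7 * i + 2) :: b :: tl := by simp
    have hb : ∃ i', i' < T φ ∧ (i' = i ∨ i' = nxt (M φ) i) ∧ b = 7 * i' + 3 := by
      rcases nb2 hw1.adj with h | h | h | h
      · exact absurd (h0 h.1) (h.2 ▸ hnot b hbtl)
      · exact absurd (h1 h.1) (h.2 ▸ hnot b hbtl)
      · exact ⟨i, hi, Or.inl rfl, h⟩
      · exact ⟨_, nxt_lt_T hi, Or.inr rfl, h⟩
    obtain ⟨i', hi', hii, rfl⟩ := hb
    have hbin : 7 * i' + 3 ∈ inner vs := hinn _ hbtl (by omega)
    cases tl with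
    | nil =>
      simp only [List.getLast?_cons_cons, List.getLast?_singleton, Option.some.injEq] at hlast'
      omega
    | cons c tl =>
      cases es with
      | nil => exact hw.elim
      | cons e2 es =>
      obtain ⟨hw2, hw⟩ := hw
      have hctl : c ∈ (7 * i + 2) :: (7 * i' + 3) :: c :: tl := by simp
      have hc : ∃ j < T φ, adj φ i' j ∧ c = 7 * j + 4 := by
        rcases nb3 hw2.adj with h | h
        · exfalso
          have hcin : c ∈ inner vs := hinn _ hctl (by omega)
          have := hun c hcin _ ha (by omega) (by omega)
          rw [this] at hndt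
          simp at hndt
        · exact h
      obtain ⟨j, hj, hij, rfl⟩ := hc
      have hcin : 7 * j + 4 ∈ inner vs := hinn _ hctl (by omega)
      refine ⟨i', j, hi', hj, hii, hij, ha, hbin, hcin, ?_⟩
      cases tl with
      | nil =>
        simp only [List.getLast?_cons_cons, List.getLast?_singleton, Option.some.injEq] at hlast'
        omega
      | cons d tl =>
        cases es with
        | nil => exact hw.elim
        | cons e3 es =>
        obtain ⟨hw3, hw⟩ := hw
        have hdtl : d ∈ (7 * i + 2) :: (7 * i' + 3) :: (7 * j + 4) :: d :: tl := by simp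
        rcases nb4 hw3.adj with h | h | h
        · exfalso
          have hdin : d ∈ inner vs := hinn _ hdtl (by omega)
          have := hun d hdin _ hbin (by omega) (by omega)
          rw [this] at hndt
          simp at hndt
        · obtain ⟨hjM, rfl⟩ := h
          cases tl with
          | nil =>
            simp only [List.getLast?_cons_cons, List.getLast?_singleton, Option.some.injEq]
              at hlast'
            omega
          | cons y tl =>
            cases es with
            | nil => exact hw.elim
            | cons e4 es =>
            obtain ⟨hw4, hw⟩ := hw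
            have hytl : y ∈ (7 * i + 2) :: (7 * i' + 3) :: (7 * j + 4) :: (7 * j + 5) :: y :: tl :=
              by simp
            rcases nb5 hw4.adj with h | h
            · exfalso
              rw [h] at hndt
              simp at hndt
            · subst h
              cases tl with
              | nil =>
                have hes : es = [] := by
                  cases es with
                  | nil => rfl
                  | cons _ _ => simp [Walk] at hw
                simp [hes, hjM]
              | cons z tl =>
                exfalso
                have hyin : 7 * j + 6 ∈ inner vs := by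
                  refine mem_inner ?_ (hhd _ hytl) ?_
                  · rw [hvs]; exact List.mem_append_right _ hytl
                  · have e : vs.getLast? = (z :: tl).getLast? := by
                      rw [hlast]
                      simp only [List.getLast?_cons_cons] at hlast'
                      exact hlast'.symm
                    rw [e]
                    intro h
                    have h' : 7 * j + 6 ∈ z :: tl := List.mem_of_getLast? h
                    simp only [List.nodup_cons] at hndt
                    exact hndt.2.2.2.2.1 h'
                exact hin _ hyin (by omega)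
        · obtain ⟨hjM, rfl⟩ := h
          cases tl with
          | nil =>
            have hes : es = [] := by
              cases es with
              | nil => rfl
              | cons _ _ => simp [Walk] at hw
            simp [hes, not_lt.2 hjM]
          | cons z tl =>
            exfalso
            have hyin : 7 * j + 6 ∈ inner vs := by
              refine mem_inner ?_ (hhd _ hdtl) ?_
              · rw [hvs]; exact List.mem_append_right _ hdtl
              · have e : vs.getLast? = (z :: tl).getLast? := by
                  rw [hlast]
                  simp only [List.getLast?_cons_cons] at hlast'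
                  exact hlast'.symm
                rw [e]
                intro h
                have h' : 7 * j + 6 ∈ z :: tl := List.mem_of_getLast? h
                simp only [List.nodup_cons] at hndt
                exact hndt.2.2.2.1 h'
            exact hin _ hyin (by omega)

/-- The shape of a path. -/
theorem shape {vs es : List ℕ} (hw : Walk (edges φ) vs es) (hnd : vs.Nodup)
    (hhead : ∃ i < T φ, vs.head? = some (7 * i))
    (hlast : ∃ j < T φ, vs.getLast? = some (7 * j + 6))
    (hin : ∀ v ∈ inner vs, v % 7 ≠ 6)
    (hun : ∀ v ∈ inner vs, ∀ w ∈ inner vs,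
      v % 7 = w % 7 → (v % 7 = 2 ∨ v % 7 = 3 ∨ v % 7 = 4) → v = w) :
    ∃ i i' j, i < T φ ∧ i' < T φ ∧ j < T φ ∧ (i' = i ∨ i' = nxt (M φ) i) ∧ adj φ i' j ∧
      7 * i + 2 ∈ inner vs ∧ 7 * i' + 3 ∈ inner vs ∧ 7 * j + 4 ∈ inner vs ∧
      es.length = (if i % 2 = 0 then 1 else 2) + (2 + (if j < M φ * M φ then 2 else 1)) := by
  obtain ⟨i, hi, hhead⟩ := hhead
  cases vs with
  | nil => simp at hhead
  | cons x vs =>
    simp only [List.head?_cons, Option.some.injEq] at hhead
    subst hhead
    cases vs with
    | nil =>
      obtain ⟨j, hj, hlast⟩ := hlast
      simp only [List.getLast?_singleton, Option.some.injEq] at hlast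
      omega
    | cons a vs =>
      cases es with
      | nil => exact hw.elim
      | cons e0 es =>
      obtain ⟨hw0, hw⟩ := hw
      rcases nb0 hw0.adj with ⟨hi2, rfl⟩ | ⟨hi2, rfl⟩
      · obtain ⟨i', j, h1, h2, h3, h4, h5, h6, h7, h8⟩ :=
          shape_tail (pre := [7 * i]) (tl := vs) (es := es) (by simp) hw (by simpa using hnd)
            (by simp) (fun h => by omega) hi (by simpa using hlast) (by simpa using hin)
            (by simpa using hun)
        exact ⟨i, i', j, hi, h1, h2, h3, h4, h5, h6, h7, by
          simp only [List.length_cons, h8, hi2, if_true]; omega⟩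
      · cases vs with
        | nil =>
          obtain ⟨j, hj, hlast⟩ := hlast
          simp only [List.getLast?_cons_cons, List.getLast?_singleton, Option.some.injEq] at hlast
          omega
        | cons b vs =>
          cases es with
          | nil => exact hw.elim
          | cons e1 es =>
          obtain ⟨hw1, hw⟩ := hw
          have hb : b = 7 * i + 2 := by
            rcases (nb1 hw1.adj).2 with h | h
            · exfalso
              rw [h] at hnd
              simp at hnd
            · exact h
          subst hb
          obtain ⟨i', j, h1, h2, h3, h4, h5, h6, h7, h8⟩ :=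
            shape_tail (pre := [7 * i, 7 * i + 1]) (tl := vs) (es := es) (by simp) hw
              (by simpa using hnd) (fun h => by omega) (by simp) hi (by simpa using hlast)
              (by simpa using hin) (by simpa using hun)
          exact ⟨i, i', j, hi, h1, h2, h3, h4, h5, h6, h7, by
            have : ¬ (i % 2 = 0) := by omega
            simp only [List.length_cons, h8, this, if_false]; omega⟩

end Pool.Agent.Y592.OP
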