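import Mathlib
import Pool.Agent.Y592.OP.Shape

set_option autoImplicit false

/-!
# The disjoint odd paths problem: disjoint odd paths give a satisfying assignment
-/

namespace Pool.Agent.Y592.OP

open Pool.Agent.NPC

variable {φ : F3}

/-- The permutations coming from paths give a satisfying assignment. -/
theorem sat_of_perms (hφ : Bounded3 φ) (f g h : Fin (T φ) → Fin (T φ))
    (hf : Function.Injective f) (hg : Function.Injective g) (hh : Function.Injective h)
    (h1 : ∀ s, (g s : ℕ) = f s ∨ (g s : ℕ) = nxt (M φ) (f s))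
    (h2 : ∀ s, adj φ (g s) (h s))
    (h3 : ∀ s, (f s : ℕ) % 2 = 0 ↔ (h s : ℕ) < M φ * M φ) : SAT3 φ := by
  classical
  have hM : φ ≠ [] → 0 < M φ := by
    intro h
    unfold M
    have := List.length_pos_of_ne_nil h
    omega
  have fs : Function.Surjective f := Finite.surjective_of_injective hf
  have hs : Function.Surjective h := Finite.surjective_of_injective hh
  -- `keep i`: the token `i` is not moved
  let keep : ℕ → Prop := fun i => ∃ s, (f s : ℕ) = i ∧ (g s : ℕ) = i
  -- if token `i` is moved, then the next token is moved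
  have step : ∀ i, i < T φ → ¬ keep i → (i + 1) % (2 * M φ) ≠ 0 → ¬ keep (i + 1) := by
    intro i hi hk hne hk'
    obtain ⟨s, hs1⟩ := fs ⟨i, hi⟩
    have hfs : (f s : ℕ) = i := by rw [hs1]
    have hgs : (g s : ℕ) = i + 1 := by
      rcases h1 s with h | h
      · exact absurd ⟨s, hfs, by rw [h, hfs]⟩ hk
      · rw [h, hfs, nxt, if_neg hne]
    obtain ⟨s', h4, h5⟩ := hk'
    have : g s = g s' := Fin.ext (by rw [hgs, h5])
    have := hg this
    subst this
    omega
  have stepb : ∀ i, i < T φ → ¬ keep i → (i + 1) % (2 * M φ) = 0 →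
      ¬ keep (i + 1 - 2 * M φ) := by
    intro i hi hk hne hk'
    have hM0 : 0 < M φ := by
      rcases Nat.eq_zero_or_pos (M φ) with h0 | h0
      · unfold T at hi
        rw [h0] at hi
        omega
      · exact h0
    obtain ⟨s, hs1⟩ := fs ⟨i, hi⟩
    have hfs : (f s : ℕ) = i := by rw [hs1]
    have hgs : (g s : ℕ) = i + 1 - 2 * M φ := by
      rcases h1 s with h | h
      · exact absurd ⟨s, hfs, by rw [h, hfs]⟩ hk
      · rw [h, hfs, nxt, if_pos hne]
    obtain ⟨s', h4, h5⟩ := hk'
    have : g s = g s' := Fin.ext (by rw [hgs, h5])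
    have := hg this
    subst this
    have h6 : 2 * M φ ≤ i + 1 := Nat.le_of_dvd (by omega) (Nat.dvd_of_mod_eq_zero hne)
    omega
  -- all tokens of a variable are moved, if one is
  have fwd : ∀ v, v < M φ → ∀ a b, a ≤ b → b < 2 * M φ → ¬ keep (v * (2 * M φ) + a) →
      ¬ keep (v * (2 * M φ) + b) := by
    intro v hv a b hab
    induction b, hab using Nat.le_induction with
    | base => exact fun _ h => h
    | succ b hab ih =>
      intro hb hk
      have h4 := ih (by omega) hk
      have hlt : v * (2 * M φ) + b < T φ := by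
        rw [T_eq]
        nlinarith
      have := step _ hlt h4 (by
        rw [add_assoc, Nat.mul_add_mod_self_right, Nat.mod_eq_of_lt hb]
        omega)
      exact this
  have all : ∀ v, v < M φ → ∀ a b, a < 2 * M φ → b < 2 * M φ → ¬ keep (v * (2 * M φ) + a) →
      ¬ keep (v * (2 * M φ) + b) := by
    intro v hv a b ha hb hk
    have h4 := fwd v hv a (2 * M φ - 1) (by omega) (by omega) hk
    have hlt : v * (2 * M φ) + (2 * M φ - 1) < T φ := by
      have h6 : (v + 1) * (2 * M φ) ≤ M φ * (2 * M φ) := Nat.mul_le_mul_right _ hv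
      have h7 : (v + 1) * (2 * M φ) = v * (2 * M φ) + 2 * M φ := by ring
      have h8 : T φ = M φ * (2 * M φ) := by unfold T; ring
      omega
    have e : v * (2 * M φ) + (2 * M φ - 1) + 1 = (v + 1) * (2 * M φ) := by
      have : 2 * M φ - 1 + 1 = 2 * M φ := by omega
      rw [add_assoc, this]
      ring
    have h5 := stepb _ hlt h4 (by rw [e]; simp)
    rw [e] at h5
    have e2 : (v + 1) * (2 * M φ) - 2 * M φ = v * (2 * M φ) + 0 := by
      rw [add_mul, one_mul]
      omega
    rw [e2] at h5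
    exact fwd v hv 0 b (Nat.zero_le _) hb h5
  refine ⟨fun v => decide (keep (v * (2 * M φ) + 0)), ?_⟩
  intro c hc
  obtain ⟨j, hj, hjc⟩ := List.getElem_of_mem hc
  have hM0 : 0 < M φ := hM (List.ne_nil_of_mem hc)
  have hjM : 3 * j + 2 < M φ := by unfold M; omega
  have hjM2 : j < M φ * M φ := by nlinarith
  have hjT : j < T φ := by unfold T; omega
  obtain ⟨s, hsj⟩ := hs ⟨j, hjT⟩
  have hhs : (h s : ℕ) = j := by rw [hsj]
  have heven : (f s : ℕ) % 2 = 0 := (h3 s).2 (by rw [hhs]; exact hjM2)
  -- the literal chosen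
  have hpos : ∃ r < 3, (g s : ℕ) = pos φ (3 * j + r) := by
    rcases h2 s with h | h | h | h
    · rw [hhs] at h; omega
    · exact ⟨0, by omega, by rw [h, hhs]; simp⟩
    · exact ⟨1, by omega, by rw [h, hhs]⟩
    · exact ⟨2, by omega, by rw [h, hhs]⟩
  obtain ⟨r, hr, hpos⟩ := hpos
  have hφc : φ.getD ((3 * j + r) / 3) ((false, 0), (false, 0), (false, 0)) = c := by
    have : (3 * j + r) / 3 = j := by omega
    rw [this, List.getD_eq_getElem _ _ hj, hjc]
  have hlit : (lit φ (3 * j + r) = c.1 ∧ r = 0) ∨ (lit φ (3 * j + r) = c.2.1 ∧ r = 1) ∨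
      (lit φ (3 * j + r) = c.2.2 ∧ r = 2) := by
    unfold lit
    rw [hφc]
    have hr3 : r = 0 ∨ r = 1 ∨ r = 2 := by omega
    rcases hr3 with rfl | rfl | rfl
    · left
      have : (3 * j + 0) % 3 = 0 := by omega
      rw [if_pos this]
      exact ⟨rfl, rfl⟩
    · right; left
      have h0 : ¬ (3 * j + 1) % 3 = 0 := by omega
      have : (3 * j + 1) % 3 = 1 := by omega
      rw [if_neg h0, if_pos this]
      exact ⟨rfl, rfl⟩
    · right; right
      have h0 : ¬ (3 * j + 2) % 3 = 0 := by omega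
      have : ¬ (3 * j + 2) % 3 = 1 := by omega
      rw [if_neg h0, if_neg this]
      exact ⟨rfl, rfl⟩
  have hvb : (lit φ (3 * j + r)).2 < M φ := by
    have := hφ c hc
    unfold M
    rcases hlit with h | h | h
    · rw [h.1]; exact this.1
    · rw [h.1]; exact this.2.1
    · rw [h.1]; exact this.2.2
  -- the literal is true
  have key : decide (keep ((lit φ (3 * j + r)).2 * (2 * M φ) + 0)) = (lit φ (3 * j + r)).1 := by
    set v := (lit φ (3 * j + r)).2 with hv
    set b := (lit φ (3 * j + r)).1 with hb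
    have hkr : 2 * (3 * j + r) + 1 < 2 * M φ := by omega
    have hp : pos φ (3 * j + r) = v * (2 * M φ) + (2 * (3 * j + r) + (if b = true then 0 else 1)) :=
      rfl
    have hpar : (v * (2 * M φ) + (2 * (3 * j + r) + (if b = true then 0 else 1))) % 2 =
        (if b = true then 0 else 1) := by
      have e : v * (2 * M φ) + (2 * (3 * j + r) + (if b = true then 0 else 1)) =
          (if b = true then 0 else 1) + 2 * (v * M φ + (3 * j + r)) := by ring
      rw [e, Nat.add_mul_mod_self_left]
      split_ifs <;> rfl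
    have hofs : 2 * (3 * j + r) + (if b = true then 0 else 1) < 2 * M φ := by
      split_ifs <;> omega
    by_cases hk : keep (pos φ (3 * j + r))
    · -- not moved
      have hk0 : keep (v * (2 * M φ) + 0) := by
        by_contra hn
        exact all v hvb 0 _ (by omega) hofs hn (hp ▸ hk)
      obtain ⟨s', h4, h5⟩ := hk
      have e : g s = g s' := Fin.ext (by rw [hpos, h5])
      have := hg e
      subst this
      rw [h4, hp, hpar] at heven
      have hbt : b = true := by
        by_contra hbn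
        rw [if_neg hbn] at heven
        omega
      rw [hbt]
      exact decide_eq_true hk0
    · -- moved
      have hk0 : ¬ keep (v * (2 * M φ) + 0) := by
        exact all v hvb _ 0 hofs (by omega) (hp ▸ hk)
      have hne : (g s : ℕ) ≠ f s := fun h => hk ⟨s, by rw [← h, hpos], hpos⟩
      have hgn : (g s : ℕ) = nxt (M φ) (f s) := (h1 s).resolve_left hne
      have hgo : (g s : ℕ) % 2 = 1 := by
        rw [hgn]
        unfold nxt
        split_ifs with h0
        · exfalso
          have : 2 ∣ (f s : ℕ) + 1 := (Dvd.intro _ rfl).trans (Nat.dvd_of_mod_eq_zero h0)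
          omega
        · omega
      rw [hpos, hp, hpar] at hgo
      have hbf : b = false := by
        cases hb' : b
        · rfl
        · rw [hb'] at hgo
          simp at hgo
      rw [hbf]
      exact decide_eq_false hk0
  rcases hlit with h | h | h
  · left; rw [← h.1]; exact key
  · right; left; rw [← h.1]; exact key
  · right; right; rw [← h.1]; exact key

theorem mem_X {v : ℕ} : v ∈ (red φ).X ↔ ∃ i < T φ, v = 7 * i := by
  simp only [red, Inst.X, List.mem_map, List.mem_range]
  constructor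
  · rintro ⟨i, h1, h2⟩
    exact ⟨i, h1, h2.symm⟩
  · rintro ⟨i, h1, h2⟩
    exact ⟨i, h1, h2.symm⟩

theorem mem_Y {v : ℕ} : v ∈ (red φ).Y ↔ ∃ i < T φ, v = 7 * i + 6 := by
  simp only [red, Inst.Y, List.mem_map, List.mem_range]
  constructor
  · rintro ⟨i, h1, h2⟩
    exact ⟨i, h1, h2.symm⟩
  · rintro ⟨i, h1, h2⟩
    exact ⟨i, h1, h2.symm⟩

theorem sat_of_oddPaths (hφ : Bounded3 φ) (h : OddPaths (red φ)) : SAT3 φ := by
  classical
  obtain ⟨_, P, hlen, hP, hpw⟩ := h
  have hk : (red φ).k = T φ := rfl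
  rw [hk] at hlen
  let pth : Fin (T φ) → List ℕ × List ℕ := fun s => P[(s : ℕ)]'(by rw [hlen]; exact s.2)
  have hpth : ∀ s, OddXYPath (red φ) (pth s) := fun s => hP _ (List.getElem_mem _)
  have hdis : ∀ s t, s ≠ t → ∀ v ∈ inner (pth s).1, v ∉ inner (pth t).1 := by
    intro s t hst v hv hv'
    rw [List.pairwise_iff_getElem] at hpw
    rcases lt_or_gt_of_ne hst with h | h
    · exact (hpw s t (by rw [hlen]; exact s.2) (by rw [hlen]; exact t.2) h).2 v hv hv'
    · exact (hpw t s (by rw [hlen]; exact t.2) (by rw [hlen]; exact s.2) h).2 v hv' hv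
  -- vertices of the three middle kinds
  have hkind : ∀ c, (c = 2 ∨ c = 3 ∨ c = 4) → ∀ s, ∃ i : Fin (T φ),
      7 * (i : ℕ) + c ∈ inner (pth s).1 := by
    intro c hc s
    obtain ⟨hw, hnd, ⟨x, hx, hx'⟩, ⟨y, hy, hy'⟩, hin, hodd⟩ := hpth s
    obtain ⟨a, ha, rfl⟩ := mem_X.1 hx
    obtain ⟨b, hb, rfl⟩ := mem_Y.1 hy
    obtain ⟨v, hv, hvc⟩ := exists_kind hc _ _ _ _ hw hx' hy' (by omega) (by omega)
    have hvin : v ∈ inner (pth s).1 := by
      refine mem_inner hv ?_ ?_
      · rw [hx']; intro h; rw [Option.some.injEq] at h; omega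
      · rw [hy']; intro h; rw [Option.some.injEq] at h; omega
    have hlen2 : 2 ≤ (pth s).1.length := by
      rcases h : (pth s).1 with _ | ⟨a', _ | ⟨b', l⟩⟩
      · rw [h] at hv; simp [inner] at hv
      · rw [h] at hvin; simp [inner] at hvin
      · simp
    have hlt := walk_lt _ _ hw hlen2 v hv
    refine ⟨⟨v / 7, by omega⟩, ?_⟩
    have : 7 * (v / 7) + c = v := by omega
    rw [this]
    exact hvin
  -- uniqueness
  have huniq : ∀ c, (c = 2 ∨ c = 3 ∨ c = 4) → ∀ s, ∀ i i' : ℕ, i < T φ → i' < T φ →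
      7 * i + c ∈ inner (pth s).1 → 7 * i' + c ∈ inner (pth s).1 → i = i' := by
    intro c hc s i i' hi hi' h1 h2
    choose F hF using hkind c hc
    have hinj : Function.Injective F := by
      intro s t hst
      by_contra hne
      exact hdis s t hne _ (hF s) (hst ▸ hF t)
    have hsur : Function.Surjective F := Finite.surjective_of_injective hinj
    have key : ∀ j, j < T φ → 7 * j + c ∈ inner (pth s).1 → (F s : ℕ) = j := by
      intro j hj hjin
      obtain ⟨t, ht⟩ := hsur ⟨j, hj⟩
      have h3 := hF t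
      rw [ht] at h3
      by_cases hst : s = t
      · rw [hst, ht]
      · exact absurd h3 (hdis s t hst _ hjin)
    rw [← key i hi h1, ← key i' hi' h2]
  have hshape : ∀ s, ∃ i i' j, i < T φ ∧ i' < T φ ∧ j < T φ ∧ (i' = i ∨ i' = nxt (M φ) i) ∧
      adj φ i' j ∧ 7 * i + 2 ∈ inner (pth s).1 ∧ 7 * i' + 3 ∈ inner (pth s).1 ∧
      7 * j + 4 ∈ inner (pth s).1 ∧ (i % 2 = 0 ↔ j < M φ * M φ) := by
    intro s
    obtain ⟨hw, hnd, ⟨x, hx, hx'⟩, ⟨y, hy, hy'⟩, hin, hodd⟩ := hpth s
    obtain ⟨a, ha, rfl⟩ := mem_X.1 hx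
    obtain ⟨b, hb, rfl⟩ := mem_Y.1 hy
    have hlt : ∀ v ∈ inner (pth s).1, v < 7 * T φ := by
      intro v hv
      have hv' : v ∈ (pth s).1 := List.mem_of_mem_tail (List.mem_of_mem_dropLast hv)
      have hlen2 : 2 ≤ (pth s).1.length := by
        rcases h : (pth s).1 with _ | ⟨a', _ | ⟨b', l⟩⟩
        · rw [h] at hv; simp [inner] at hv
        · rw [h] at hv; simp [inner] at hv
        · simp
      exact walk_lt _ _ hw hlen2 v hv'
    obtain ⟨i, i', j, h1, h2, h3, h4, h5, h6, h7, h8, h9⟩ := shape hw hnd ⟨a, ha, hx'⟩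
      ⟨b, hb, hy'⟩ (by
        intro v hv h6
        refine (hin v hv).2 (mem_Y.2 ⟨v / 7, ?_, by omega⟩)
        have := hlt v hv
        omega) (by
        intro v hv w hw hvw hk
        have hv' := hlt v hv
        have hw' := hlt w hw
        have e1 : 7 * (v / 7) + v % 7 = v := by omega
        have e2 : 7 * (w / 7) + v % 7 = w := by omega
        have := huniq (v % 7) hk s (v / 7) (w / 7) (by omega) (by omega)
          (by rw [e1]; exact hv) (by rw [e2]; exact hw)
        omega)
    refine ⟨i, i', j, h1, h2, h3, h4, h5, h6, h7, h8, ?_⟩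
    rw [h9] at hodd
    split_ifs at hodd with c1 c2 c2 <;> omega
  choose i i' j h1 h2 h3 h4 h5 h6 h7 h8 h9 using hshape
  refine sat_of_perms hφ (fun s => ⟨i s, h1 s⟩) (fun s => ⟨i' s, h2 s⟩) (fun s => ⟨j s, h3 s⟩)
    ?_ ?_ ?_ h4 h5 h9
  · intro s t hst
    simp only [Fin.mk.injEq] at hst
    by_contra hne
    exact hdis s t hne _ (h6 s) (hst ▸ h6 t)
  · intro s t hst
    simp only [Fin.mk.injEq] at hst
    by_contra hne
    exact hdis s t hne _ (h7 s) (hst ▸ h7 t)
  · intro s t hst
    simp only [Fin.mk.injEq] at hst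
    by_contra hne
    exact hdis s t hne _ (h8 s) (hst ▸ h8 t)

end Pool.Agent.Y592.OP
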