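import Mathlib
import Pool.Agent.Y592.OP.Bwd

set_option autoImplicit false

/-!
# The disjoint odd paths problem: a satisfying assignment gives disjoint odd paths
-/

namespace Pool.Agent.Y592.OP

open Pool.Agent.NPC

variable {φ : F3}

theorem nxt_block {m v t : ℕ} (ht : t < 2 * m) :
    nxt m (v * (2 * m) + t) = v * (2 * m) + (if t + 1 = 2 * m then 0 else t + 1) := by
  unfold nxt
  have e : v * (2 * m) + t + 1 = (t + 1) + (2 * m) * v := by ring
  have hmod : (v * (2 * m) + t + 1) % (2 * m) = (t + 1) % (2 * m) := by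
    rw [e, Nat.add_mul_mod_self_left]
  rw [hmod]
  split_ifs with h1 h2 h2
  · omega
  · exfalso
    rw [Nat.mod_eq_of_lt (by omega)] at h1
    omega
  · exfalso
    rw [h2] at h1
    simp at h1
  · omega

/-- The token moves of an assignment. -/
def mv (m : ℕ) (τ : ℕ → Bool) (i : ℕ) : ℕ := if τ (i / (2 * m)) = true then i else nxt m i

theorem mv_block {m v t : ℕ} {τ : ℕ → Bool} (hm : 0 < m) (ht : t < 2 * m) :
    mv m τ (v * (2 * m) + t) = v * (2 * m) +
      (if τ v = true then t else (if t + 1 = 2 * m then 0 else t + 1)) := by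
  unfold mv
  have hd : (v * (2 * m) + t) / (2 * m) = v := by
    rw [mul_comm, Nat.mul_add_div (by omega), Nat.div_eq_of_lt ht, add_zero]
  rw [hd]
  split_ifs with h1 h2
  · rfl
  · rw [nxt_block ht, if_pos h2]
  · rw [nxt_block ht, if_neg h2]

theorem decomp (m i : ℕ) : i = (i / (2 * m)) * (2 * m) + i % (2 * m) := by
  rw [mul_comm]; exact (Nat.div_add_mod i (2 * m)).symm

theorem mv_div {m i : ℕ} {τ : ℕ → Bool} (hm : 0 < m) :
    mv m τ i / (2 * m) = i / (2 * m) := by
  have ht : i % (2 * m) < 2 * m := Nat.mod_lt _ (by omega)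
  conv_lhs => rw [decomp m i]
  rw [mv_block hm ht, mul_comm, Nat.mul_add_div (by omega)]
  have : (if τ (i / (2 * m)) = true then i % (2 * m) else
      (if i % (2 * m) + 1 = 2 * m then 0 else i % (2 * m) + 1)) < 2 * m := by
    split_ifs <;> omega
  rw [Nat.div_eq_of_lt this, add_zero]

theorem mv_inj {m : ℕ} {τ : ℕ → Bool} (hm : 0 < m) {i i' : ℕ}
    (h : mv m τ i = mv m τ i') : i = i' := by
  have hd : i / (2 * m) = i' / (2 * m) := by rw [← mv_div (τ := τ) hm, h, mv_div hm]
  have ht : i % (2 * m) < 2 * m := Nat.mod_lt _ (by omega)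
  have ht' : i' % (2 * m) < 2 * m := Nat.mod_lt _ (by omega)
  rw [decomp m i, decomp m i', mv_block hm ht, mv_block hm ht', hd] at h
  rw [decomp m i, decomp m i', hd]
  have := Nat.add_left_cancel h
  congr 1
  split_ifs at this <;> omega

theorem mv_parity {m : ℕ} {τ : ℕ → Bool} (hm : 0 < m) (i : ℕ) :
    (mv m τ i % 2 = 0 ↔ τ (mv m τ i / (2 * m)) = true) ↔ i % 2 = 0 := by
  rw [mv_div hm]
  have ht : i % (2 * m) < 2 * m := Nat.mod_lt _ (by omega)
  have e : mv m τ i = (i / (2 * m)) * (2 * m) +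
      (if τ (i / (2 * m)) = true then i % (2 * m) else
        (if i % (2 * m) + 1 = 2 * m then 0 else i % (2 * m) + 1)) := by
    conv_lhs => rw [decomp m i]
    rw [mv_block hm ht]
  have h2 : ∀ s, ((i / (2 * m)) * (2 * m) + s) % 2 = s % 2 := by
    intro s
    have : (i / (2 * m)) * (2 * m) + s = s + 2 * ((i / (2 * m)) * m) := by ring
    rw [this, Nat.add_mul_mod_self_left]
  have hi2 : i % 2 = (i % (2 * m)) % 2 := by
    conv_lhs => rw [decomp m i]
    rw [h2]
  rw [e, h2, hi2]
  cases hτ : τ (i / (2 * m))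
  · simp only [Bool.false_eq_true, if_false, iff_false]
    split_ifs with h3
    · omega
    · omega
  · simp

theorem mv_lt {m i : ℕ} {τ : ℕ → Bool} (hm : 0 < m) (hi : i < 2 * m * m) :
    mv m τ i < 2 * m * m := by
  unfold mv
  split_ifs
  · exact hi
  · exact nxt_lt m hm hi

theorem mv_eq {m i : ℕ} {τ : ℕ → Bool} : mv m τ i = i ∨ mv m τ i = nxt m i := by
  unfold mv
  split_ifs
  · exact Or.inl rfl
  · exact Or.inr rfl

/-- The tokens that are black after the first step. -/
def Blk (m : ℕ) (τ : ℕ → Bool) (i : ℕ) : Prop := i % 2 = 0 ↔ τ (i / (2 * m)) = true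

theorem card_blk {m : ℕ} (hm : 0 < m) (τ : ℕ → Bool) [DecidablePred (Blk m τ)] :
    Fintype.card {x : Fin (2 * (m * m)) // Blk m τ x} = m * m := by
  classical
  have key : ∀ s : Bool, ∀ v < m, ∀ k < m,
      v * (2 * m) + (2 * k + (if τ v = s then 0 else 1)) < 2 * (m * m) := by
    intro s v hv k hk
    have h1 : (v + 1) * (2 * m) ≤ m * (2 * m) := Nat.mul_le_mul_right _ hv
    have h2 : (v + 1) * (2 * m) = v * (2 * m) + 2 * m := by ring
    have h3 : m * (2 * m) = 2 * (m * m) := by ring
    split_ifs <;> omega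
  let F : Bool → Fin m × Fin m → Fin (2 * (m * m)) := fun s p =>
    ⟨p.1 * (2 * m) + (2 * p.2 + (if τ p.1 = s then 0 else 1)), key s _ p.1.2 _ p.2.2⟩
  have hdiv : ∀ s p, (F s p : ℕ) / (2 * m) = p.1 := by
    intro s p
    show (p.1 * (2 * m) + (2 * p.2 + (if τ p.1 = s then 0 else 1)) : ℕ) / (2 * m) = p.1
    rw [mul_comm, Nat.mul_add_div (by omega), Nat.div_eq_of_lt, add_zero]
    have := p.2.2
    split_ifs <;> omega
  have hpar : ∀ s p, (F s p : ℕ) % 2 = if τ p.1 = s then 0 else 1 := by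
    intro s p
    show (p.1 * (2 * m) + (2 * p.2 + (if τ p.1 = s then 0 else 1)) : ℕ) % 2 = _
    have : (p.1 * (2 * m) + (2 * p.2 + (if τ p.1 = s then 0 else 1)) : ℕ) =
        (if τ p.1 = s then 0 else 1) + 2 * (p.1 * m + p.2) := by ring
    rw [this, Nat.add_mul_mod_self_left]
    split_ifs <;> rfl
  have hinj : ∀ s, Function.Injective (F s) := by
    intro s p q h
    have h1 : (F s p : ℕ) = F s q := by rw [h]
    have h2 : p.1 = q.1 := Fin.ext (by rw [← hdiv s p, ← hdiv s q, h1])
    have h3 : p.2 = q.2 := by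
      have h4 : (p.1 * (2 * m) + (2 * p.2 + (if τ p.1 = s then 0 else 1)) : ℕ) =
        q.1 * (2 * m) + (2 * q.2 + (if τ q.1 = s then 0 else 1)) := h1
      rw [h2] at h4
      exact Fin.ext (by omega)
    exact Prod.ext h2 h3
  have c1 : m * m ≤ Fintype.card {x : Fin (2 * (m * m)) // Blk m τ x} := by
    have := Fintype.card_le_of_injective (fun p : Fin m × Fin m =>
      (⟨F true p, by
        show (F true p : ℕ) % 2 = 0 ↔ τ ((F true p : ℕ) / (2 * m)) = true
        rw [hdiv, hpar]
        split_ifs with h <;> simp [h]⟩ : {x : Fin (2 * (m * m)) // Blk m τ x}))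
      (fun p q h => hinj true (congrArg Subtype.val h))
    simpa using this
  have c2 : m * m ≤ Fintype.card {x : Fin (2 * (m * m)) // ¬ Blk m τ x} := by
    have := Fintype.card_le_of_injective (fun p : Fin m × Fin m =>
      (⟨F false p, by
        show ¬ ((F false p : ℕ) % 2 = 0 ↔ τ ((F false p : ℕ) / (2 * m)) = true)
        rw [hdiv, hpar]
        split_ifs with h <;> simp [h]⟩ : {x : Fin (2 * (m * m)) // ¬ Blk m τ x}))
      (fun p q h => hinj false (congrArg Subtype.val h))
    simpa using this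
  have c3 := Fintype.card_subtype_compl (fun x : Fin (2 * (m * m)) => Blk m τ x)
  have c4 : Fintype.card {x : Fin (2 * (m * m)) // Blk m τ x} ≤ 2 * (m * m) := by
    have := Fintype.card_subtype_le (fun x : Fin (2 * (m * m)) => Blk m τ x)
    simpa using this
  rw [Fintype.card_fin] at c3
  omega

/-- The exits. -/
theorem exists_exit (hφ : φ ≠ []) (hb : Bounded3 φ) {τ : ℕ → Bool}
    (hτ : ∀ c ∈ φ, τ c.1.2 = c.1.1 ∨ τ c.2.1.2 = c.2.1.1 ∨ τ c.2.2.2 = c.2.2.1) :
    ∃ π : Equiv.Perm (Fin (T φ)), ∀ i : Fin (T φ), adj φ i (π i) ∧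
      (Blk (M φ) τ i ↔ (π i : ℕ) < M φ * M φ) := by
  classical
  have hm : 0 < φ.length := List.length_pos_of_ne_nil hφ
  have hM0 : 0 < M φ := by unfold M; omega
  have hmM : φ.length ≤ M φ * M φ := by
    have : φ.length ≤ M φ := by unfold M; omega
    nlinarith
  have hMT : M φ * M φ ≤ T φ := by unfold T; omega
  -- the true literal
  have hlit : ∀ j : Fin φ.length, ∃ r < 3, pos φ (3 * j + r) < T φ ∧
      Blk (M φ) τ (pos φ (3 * j + r)) ∧ adj φ (pos φ (3 * j + r)) j := by
    intro j
    set c := φ[(j : ℕ)] with hc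
    have hcm : c ∈ φ := List.getElem_mem _
    have hgen : ∀ r < 3, ∀ l : Lit ℕ, lit φ (3 * j + r) = l → l.2 < M φ → τ l.2 = l.1 →
        pos φ (3 * j + r) < T φ ∧ Blk (M φ) τ (pos φ (3 * j + r)) := by
      intro r hr l hl hlM hτl
      have hofs : 2 * (3 * (j : ℕ) + r) + (if l.1 = true then 0 else 1) < 2 * M φ := by
        have := j.2
        unfold M
        split_ifs <;> omega
      have hp : pos φ (3 * j + r) = l.2 * (2 * M φ) + (2 * (3 * j + r) +
        (if l.1 = true then 0 else 1)) := by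
        unfold pos; rw [hl]
      constructor
      · rw [hp]
        have h1 : (l.2 + 1) * (2 * M φ) ≤ M φ * (2 * M φ) := Nat.mul_le_mul_right _ hlM
        have h2 : (l.2 + 1) * (2 * M φ) = l.2 * (2 * M φ) + 2 * M φ := by ring
        have h3 : M φ * (2 * M φ) = T φ := by unfold T; ring
        omega
      · unfold Blk
        have hd : pos φ (3 * j + r) / (2 * M φ) = l.2 := by
          rw [hp, mul_comm, Nat.mul_add_div (by omega), Nat.div_eq_of_lt hofs, add_zero]
        have hpar : pos φ (3 * j + r) % 2 = if l.1 = true then 0 else 1 := by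
          rw [hp]
          have e : l.2 * (2 * M φ) + (2 * (3 * (j : ℕ) + r) + (if l.1 = true then 0 else 1)) =
              (if l.1 = true then 0 else 1) + 2 * (l.2 * M φ + (3 * j + r)) := by ring
          rw [e, Nat.add_mul_mod_self_left]
          split_ifs <;> rfl
        rw [hd, hpar, hτl]
        split_ifs with h <;> simp [h]
    have hφc : ∀ r < 3, φ.getD ((3 * (j : ℕ) + r) / 3) ((false, 0), (false, 0), (false, 0)) = c := by
      intro r hr
      have : (3 * (j : ℕ) + r) / 3 = j := by omega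
      rw [this, List.getD_eq_getElem _ _ j.2]
    have hbc := hb c hcm
    rcases hτ c hcm with h | h | h
    · have hl : lit φ (3 * j + 0) = c.1 := by
        unfold lit
        rw [hφc 0 (by omega), if_pos (by omega)]
      obtain ⟨h1, h2⟩ := hgen 0 (by omega) _ hl hbc.1 h
      exact ⟨0, by omega, h1, h2, Or.inr (Or.inl rfl)⟩
    · have hl : lit φ (3 * j + 1) = c.2.1 := by
        unfold lit
        rw [hφc 1 (by omega), if_neg (by omega), if_pos (by omega)]
      obtain ⟨h1, h2⟩ := hgen 1 (by omega) _ hl hbc.2.1 h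
      exact ⟨1, by omega, h1, h2, Or.inr (Or.inr (Or.inl rfl))⟩
    · have hl : lit φ (3 * j + 2) = c.2.2 := by
        unfold lit
        rw [hφc 2 (by omega), if_neg (by omega), if_neg (by omega)]
      obtain ⟨h1, h2⟩ := hgen 2 (by omega) _ hl hbc.2.2 h
      exact ⟨2, by omega, h1, h2, Or.inr (Or.inr (Or.inr rfl))⟩
  choose r hr3 hrT hrB hrA using hlit
  -- different clauses use different tokens
  have hqinj : ∀ j j' : Fin φ.length, pos φ (3 * j + r j) = pos φ (3 * j' + r j') → j = j' := by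
    intro j j' h
    have h1 : ∀ j : Fin φ.length, (pos φ (3 * j + r j) % (2 * M φ)) / 2 = 3 * j + r j := by
      intro j
      unfold pos
      have hofs : 2 * (3 * (j : ℕ) + r j) + (if (lit φ (3 * j + r j)).1 = true then 0 else 1) <
          2 * M φ := by
        have := j.2
        have := hr3 j
        unfold M
        split_ifs <;> omega
      rw [mul_comm, Nat.mul_add_mod, Nat.mod_eq_of_lt hofs]
      split_ifs <;> omega
    have h2 : 3 * (j : ℕ) + r j = 3 * j' + r j' := by rw [← h1 j, ← h1 j', h]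
    have := hr3 j
    have := hr3 j'
    exact Fin.ext (by omega)
  -- equivalence of black tokens and black exits
  have hcard : Fintype.card {x : Fin (T φ) // Blk (M φ) τ x} =
      Fintype.card {x : Fin (T φ) // (x : ℕ) < M φ * M φ} := by
    have h1 : Fintype.card {x : Fin (T φ) // Blk (M φ) τ x} = M φ * M φ := card_blk hM0 τ
    rw [h1]
    have e : {x : Fin (T φ) // (x : ℕ) < M φ * M φ} ≃ Fin (M φ * M φ) :=
      { toFun := fun x => ⟨x.1, x.2⟩
        invFun := fun x => ⟨⟨x, x.2.trans_le hMT⟩, x.2⟩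
        left_inv := fun _ => rfl
        right_inv := fun _ => rfl }
    rw [Fintype.card_congr e, Fintype.card_fin]
  let e := Fintype.equivOfCardEq hcard
  obtain ⟨ρ, hρ⟩ := Equiv.Perm.exists_extending_pair
    (fun j : Fin φ.length => e ⟨⟨pos φ (3 * j + r j), hrT j⟩, hrB j⟩)
    (fun j : Fin φ.length => (⟨⟨j, by have := j.2; omega⟩, by
      have := j.2
      show (j : ℕ) < _
      omega⟩ : {x : Fin (T φ) // (x : ℕ) < M φ * M φ}))
    (fun j j' h => hqinj j j' (by
      have := e.injective h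
      simpa using this))
    (fun j j' h => by
      have h' := congrArg (fun x : {x : Fin (T φ) // (x : ℕ) < M φ * M φ} => (x.1 : ℕ)) h
      exact Fin.ext h')
  refine ⟨(e.trans ρ).extendSubtype, fun i => ?_⟩
  by_cases hi : Blk (M φ) τ i
  · have h1 := Equiv.extendSubtype_mem (e.trans ρ) i hi
    refine ⟨?_, by simp only [hi, h1]⟩
    by_cases hj : (((e.trans ρ).extendSubtype i : Fin (T φ)) : ℕ) < φ.length
    · -- the exit of a clause
      set j : Fin φ.length := ⟨_, hj⟩ with hjdef
      have h2 := hρ j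
      have h3 : (e.trans ρ) ⟨i, hi⟩ = (e.trans ρ) ⟨⟨pos φ (3 * j + r j), hrT j⟩, hrB j⟩ := by
        have h4 : (e.trans ρ) ⟨⟨pos φ (3 * j + r j), hrT j⟩, hrB j⟩ =
          ρ (e ⟨⟨pos φ (3 * j + r j), hrT j⟩, hrB j⟩) := rfl
        rw [h4, h2]
        apply Subtype.ext
        apply Fin.ext
        rw [← Equiv.extendSubtype_apply_of_mem (e.trans ρ) i hi]
      have h5 := (e.trans ρ).injective h3
      have h6 : (i : ℕ) = pos φ (3 * j + r j) := by
        have := congrArg (fun x : {x : Fin (T φ) // Blk (M φ) τ x} => (x.1 : ℕ)) h5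
        exact this
      rw [h6]
      exact hrA j
    · exact Or.inl (by omega)
  · have h1 := Equiv.extendSubtype_not_mem (e.trans ρ) i hi
    refine ⟨Or.inl ?_, by simp only [hi, h1]⟩
    omega

/-- Consecutive vertices are adjacent. -/
def Chain (φ : F3) : List ℕ → Prop
  | [] => False
  | [_] => True
  | u :: v :: vs => Adj φ u v ∧ Chain φ (v :: vs)

theorem exists_walk : ∀ (vs : List ℕ), Chain φ vs →
    ∃ es, Walk (edges φ) vs es ∧ es.length + 1 = vs.length
  | [], h => h.elim
  | [u], _ => ⟨[], rfl, rfl⟩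
  | u :: v :: vs, h => by
    obtain ⟨es, h1, h2⟩ := exists_walk (v :: vs) h.2
    obtain ⟨e, he⟩ := h.1.exists_joins
    exact ⟨e :: es, ⟨he, h1⟩, by simp only [List.length_cons] at h2 ⊢; omega⟩

/-- The path of a token. -/
def vsOf (i i' j : ℕ) : List ℕ :=
  if i % 2 = 0 then [7 * i, 7 * i + 2, 7 * i' + 3, 7 * j + 4, 7 * j + 5, 7 * j + 6]
  else [7 * i, 7 * i + 1, 7 * i + 2, 7 * i' + 3, 7 * j + 4, 7 * j + 6]

theorem chain_vsOf {i i' j : ℕ} (hi : i < T φ) (hi' : i' < T φ) (hj : j < T φ)
    (h1 : i' = i ∨ i' = nxt (M φ) i) (h2 : adj φ i' j) (h3 : i % 2 = 0 ↔ j < M φ * M φ) :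
    Chain φ (vsOf i i' j) := by
  have hb : Adj φ (7 * i + 2) (7 * i' + 3) := by
    left
    rw [mem_edges]
    refine ⟨i, hi, mem_edgesAt.2 ?_⟩
    rcases h1 with rfl | rfl
    · right; right; right; left; exact ⟨rfl, rfl⟩
    · right; right; right; right; left; exact ⟨rfl, rfl⟩
  have hc : Adj φ (7 * i' + 3) (7 * j + 4) := by
    left
    rw [mem_edges]
    exact ⟨i', hi', mem_edgesAt.2 (by
      right; right; right; right; right; right; right; right; exact ⟨j, hj, h2, rfl, rfl⟩)⟩
  unfold vsOf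
  split_ifs with hp
  · have ha : Adj φ (7 * i) (7 * i + 2) := by
      left; rw [mem_edges]
      exact ⟨i, hi, mem_edgesAt.2 (by left; exact ⟨hp, rfl, rfl⟩)⟩
    have hd : Adj φ (7 * j + 4) (7 * j + 5) := by
      left; rw [mem_edges]
      exact ⟨j, hj, mem_edgesAt.2 (by
        right; right; right; right; right; left; exact ⟨h3.1 hp, rfl, rfl⟩)⟩
    have he : Adj φ (7 * j + 5) (7 * j + 6) := by
      left; rw [mem_edges]
      exact ⟨j, hj, mem_edgesAt.2 (by
        right; right; right; right; right; right; left; exact ⟨h3.1 hp, rfl, rfl⟩)⟩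
    exact ⟨ha, hb, hc, hd, he, trivial⟩
  · have hp' : i % 2 = 1 := by omega
    have ha : Adj φ (7 * i) (7 * i + 1) := by
      left; rw [mem_edges]
      exact ⟨i, hi, mem_edgesAt.2 (by right; left; exact ⟨hp', rfl, rfl⟩)⟩
    have ha' : Adj φ (7 * i + 1) (7 * i + 2) := by
      left; rw [mem_edges]
      exact ⟨i, hi, mem_edgesAt.2 (by right; right; left; exact ⟨hp', rfl, rfl⟩)⟩
    have hd : Adj φ (7 * j + 4) (7 * j + 6) := by
      left; rw [mem_edges]
      have : M φ * M φ ≤ j := by
        by_contra hlt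
        exact hp (h3.2 (not_le.1 hlt))
      exact ⟨j, hj, mem_edgesAt.2 (by
        right; right; right; right; right; right; right; left; exact ⟨this, rfl, rfl⟩)⟩
    exact ⟨ha, ha', hb, hc, hd, trivial⟩

theorem red_valid (hφ : φ ≠ []) : (red φ).Valid := by
  have hm : 0 < φ.length := List.length_pos_of_ne_nil hφ
  have hM0 : 0 < M φ := by unfold M; omega
  have hT : 0 < T φ := by unfold T; positivity
  refine ⟨List.nodup_range, ?_, hT, ?_, ?_, ?_, ?_, ?_, ?_⟩
  · rintro ⟨u, v⟩ h
    have hA : Adj φ u v := Or.inl h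
    exact ⟨List.mem_range.2 (adj_lt hA), List.mem_range.2 (adj_lt hA.symm)⟩
  · exact List.nodup_range.map (fun a b h => by
      have h' : 7 * a = 7 * b := h
      omega)
  · show ((List.range (T φ)).map _).length = T φ
    simp
  · intro x hx
    obtain ⟨i, hi, rfl⟩ := mem_X.1 hx
    exact List.mem_range.2 (by omega)
  · exact List.nodup_range.map (fun a b h => by
      have h' : 7 * a + 6 = 7 * b + 6 := h
      omega)
  · show ((List.range (T φ)).map _).length = T φ
    simp
  · intro x hx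
    obtain ⟨i, hi, rfl⟩ := mem_Y.1 hx
    exact List.mem_range.2 (by omega)

theorem disjointOddPaths_of_sat (hφ : φ ≠ []) (hb : Bounded3 φ) (h : SAT3 φ) :
    DisjointOddPaths (red φ) := by
  classical
  obtain ⟨τ, hτ⟩ := h
  have hm : 0 < φ.length := List.length_pos_of_ne_nil hφ
  have hM0 : 0 < M φ := by unfold M; omega
  obtain ⟨π, hπ⟩ := exists_exit hφ hb hτ
  have hT2 : T φ = 2 * M φ * M φ := T_eq φ
  let σ : Fin (T φ) → Fin (T φ) := fun i => ⟨mv (M φ) τ i,
    lt_of_lt_of_eq (mv_lt hM0 (lt_of_lt_of_eq i.2 hT2)) hT2.symm⟩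
  have hσ : Function.Injective σ := fun i i' h => by
    have := congrArg (fun x : Fin (T φ) => (x : ℕ)) h
    exact Fin.ext (mv_inj hM0 this)
  have hcol : ∀ i : Fin (T φ), ((i : ℕ) % 2 = 0 ↔ (π (σ i) : ℕ) < M φ * M φ) := by
    intro i
    rw [← (hπ (σ i)).2]
    exact (mv_parity (τ := τ) hM0 i).symm
  have hex : ∀ i : Fin (T φ), ∃ es, Walk (edges φ) (vsOf i (σ i) (π (σ i))) es ∧
      es.length + 1 = (vsOf (i : ℕ) (σ i) (π (σ i))).length := fun i =>
    exists_walk _ (chain_vsOf i.2 (σ i).2 (π (σ i)).2 mv_eq (hπ (σ i)).1 (hcol i))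
  choose es hes hlen using hex
  have hlen6 : ∀ i i' j : ℕ, (vsOf i i' j).length = 6 := by
    intro i i' j
    unfold vsOf
    split_ifs <;> rfl
  refine ⟨red_valid hφ, (List.finRange (T φ)).map
    (fun i : Fin (T φ) => (vsOf i (σ i) (π (σ i)), es i)), ?_, ?_, ?_⟩
  · show _ = T φ
    simp
  · intro p hp
    rw [List.mem_map] at hp
    obtain ⟨i, _, rfl⟩ := hp
    refine ⟨hes i, ?_, ?_, ?_, ?_, ?_⟩
    · show (vsOf (i : ℕ) (σ i) (π (σ i))).Nodup
      unfold vsOf
      split_ifs <;>
      · simp only [List.nodup_cons, List.mem_cons, List.not_mem_nil, or_false, not_false_eq_true,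
          List.nodup_nil, and_true, not_or]
        omega
    · refine ⟨7 * i, mem_X.2 ⟨i, i.2, rfl⟩, ?_⟩
      show (vsOf (i : ℕ) (σ i) (π (σ i))).head? = _
      unfold vsOf
      split_ifs <;> rfl
    · refine ⟨7 * (π (σ i)) + 6, mem_Y.2 ⟨_, (π (σ i)).2, rfl⟩, ?_⟩
      show (vsOf (i : ℕ) (σ i) (π (σ i))).getLast? = _
      unfold vsOf
      split_ifs <;> rfl
    · intro v hv
      have hv' : v % 7 ≠ 0 ∧ v % 7 ≠ 6 := by
        revert hv
        show v ∈ (vsOf (i : ℕ) (σ i) (π (σ i))).tail.dropLast → _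
        unfold vsOf
        split_ifs <;>
        · simp only [List.tail_cons, List.dropLast_cons_cons, List.dropLast_singleton,
            List.mem_cons, List.not_mem_nil, or_false]
          omega
      constructor
      · rw [mem_X]
        rintro ⟨a, _, ha⟩
        omega
      · rw [mem_Y]
        rintro ⟨a, _, ha⟩
        omega
    · show (es i).length % 2 = 1
      have := hlen i
      rw [hlen6] at this
      omega
  · rw [List.pairwise_map]
    refine (List.nodup_finRange _).imp ?_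
    intro s t hst v hv hv'
    have hσst : (σ s : ℕ) ≠ σ t := fun h => hst (hσ (Fin.ext h))
    have hπst : (π (σ s) : ℕ) ≠ π (σ t) := fun h => hst (hσ (π.injective (Fin.ext h)))
    have hst' : (s : ℕ) ≠ t := fun h => hst (Fin.ext h)
    revert hv hv'
    show v ∈ vsOf (s : ℕ) (σ s) (π (σ s)) → v ∈ vsOf (t : ℕ) (σ t) (π (σ t)) → False
    unfold vsOf
    split_ifs <;>
    · simp only [List.mem_cons, List.not_mem_nil, or_false]
      omega

/-- Disjoint paths are internally disjoint and different. -/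
theorem DisjointOddPaths.oddPaths {I : Inst} (h : DisjointOddPaths I) : OddPaths I := by
  obtain ⟨hV, P, h1, h2, h3⟩ := h
  refine ⟨hV, P, h1, h2, ?_⟩
  rw [List.pairwise_iff_getElem] at h3 ⊢
  intro i j hi hj hij
  have hd := h3 i j hi hj hij
  have hin : ∀ vs : List ℕ, ∀ v ∈ inner vs, v ∈ vs := fun vs v hv =>
    List.mem_of_mem_tail (List.mem_of_mem_dropLast hv)
  refine ⟨?_, fun v hv hv' => hd v (hin _ v hv) (hin _ v hv')⟩
  intro he
  obtain ⟨hw, _, _, _, _, hodd⟩ := h2 _ (List.getElem_mem hi)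
  obtain ⟨hw', _, _, _, _, _⟩ := h2 _ (List.getElem_mem hj)
  rw [← he] at hw'
  -- both walks use the same first edge
  rcases hv : P[i].1 with _ | ⟨u, _ | ⟨v, vs⟩⟩
  · rw [hv] at hw; exact hw
  · rw [hv] at hw
    have : P[i].2 = [] := hw
    rw [this] at hodd
    simp at hodd
  · rcases hv2 : P[j].1 with _ | ⟨u', _ | ⟨v', vs'⟩⟩
    · rw [hv2] at hw'; exact hw'
    · rw [hv2] at hw'
      have : P[i].2 = [] := hw'
      rw [this] at hodd
      simp at hodd
    · rcases hes : P[i].2 with _ | ⟨e, es⟩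
      · rw [hes] at hodd; simp at hodd
      · rw [hv, hes] at hw
        rw [hv2, hes] at hw'
        have hJ := hw.1
        have hJ' := hw'.1
        have hu : u ∈ P[j].1 := by
          rw [hv2]
          rcases hJ with a | a <;> rcases hJ' with b | b <;>
          · rw [a] at b
            simp only [Option.some.injEq, Prod.mk.injEq] at b
            simp [b.1, b.2]
        exact hd u (by rw [hv]; simp) hu

theorem red_iff (hφ : φ ≠ []) (hb : Bounded3 φ) : (SAT3 φ ↔ OddPaths (red φ)) ∧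
    (SAT3 φ ↔ DisjointOddPaths (red φ)) :=
  ⟨⟨fun h => (disjointOddPaths_of_sat hφ hb h).oddPaths, sat_of_oddPaths hb⟩,
    ⟨disjointOddPaths_of_sat hφ hb, fun h => sat_of_oddPaths hb h.oddPaths⟩⟩

end Pool.Agent.Y592.OP
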