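import Mathlib
import Pool.Agent.Y592.OP.Fwd

set_option autoImplicit false

/-!
# The disjoint odd paths problem: the reduction is polynomial
-/

namespace Pool.Agent.Y592.OP

open Pool.Agent.NPC

theorem M_upoly {α : Type} [TEnc α] {f : α → F3} (hf : NPC.Poly f) : UPoly (fun a => M (f a)) := by
  unfold M
  exact UPoly.mul (UPoly.const 3) (UPoly.length hf)

theorem MM_upoly {α : Type} [TEnc α] {f : α → F3} (hf : NPC.Poly f) :
    UPoly (fun a => M (f a) * M (f a)) := UPoly.mul (M_upoly hf) (M_upoly hf)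

theorem T_upoly {α : Type} [TEnc α] {f : α → F3} (hf : NPC.Poly f) : UPoly (fun a => T (f a)) := by
  unfold T
  exact UPoly.mul (UPoly.const 2) (MM_upoly hf)

theorem lit_poly {α : Type} [TEnc α] {f : α → F3} {k : α → ℕ} (hf : NPC.Poly f)
    (hk : NPC.Poly k) : NPC.Poly (fun a => lit (f a) (k a)) := by
  unfold lit
  have hd : NPC.Poly (fun a => (f a).getD (k a / 3) ((false, 0), (false, 0), (false, 0))) :=
    NPC.Poly.getD hf (NPC.Poly.div hk (NPC.Poly.const 3)) (NPC.Poly.const _)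
  have hm : NPC.Poly (fun a => k a % 3) := NPC.Poly.mod hk (NPC.Poly.const 3)
  exact NPC.Poly.ite (NPC.Poly.decide_eq hm (NPC.Poly.const 0)) (NPC.Poly.fst hd)
    (NPC.Poly.ite (NPC.Poly.decide_eq hm (NPC.Poly.const 1)) (NPC.Poly.fst (NPC.Poly.snd hd))
      (NPC.Poly.snd (NPC.Poly.snd hd)))

theorem pos_poly {α : Type} [TEnc α] {f : α → F3} {k : α → ℕ} (hf : NPC.Poly f)
    (hk : NPC.Poly k) : NPC.Poly (fun a => pos (f a) (k a)) := by
  unfold pos
  have hl := lit_poly hf hk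
  exact NPC.Poly.add (NPC.Poly.mul (NPC.Poly.snd hl)
    (NPC.Poly.mul (NPC.Poly.const 2) (M_upoly hf).toPoly))
    (NPC.Poly.add (NPC.Poly.mul (NPC.Poly.const 2) hk)
      (NPC.Poly.ite (NPC.Poly.decide_bool (NPC.Poly.fst hl)) (NPC.Poly.const 0)
        (NPC.Poly.const 1)))

theorem nxt_poly {α : Type} [TEnc α] {m i : α → ℕ} (hm : NPC.Poly m) (hi : NPC.Poly i) :
    NPC.Poly (fun a => nxt (m a) (i a)) := by
  unfold nxt
  have h2 : NPC.Poly (fun a => 2 * m a) := NPC.Poly.mul (NPC.Poly.const 2) hm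
  exact NPC.Poly.ite (NPC.Poly.decide_eq (NPC.Poly.mod (NPC.Poly.succ hi) h2) (NPC.Poly.const 0))
    (NPC.Poly.sub (NPC.Poly.succ hi) h2) (NPC.Poly.succ hi)

theorem adj_poly {α : Type} [TEnc α] {f : α → F3} {i j : α → ℕ} (hf : NPC.Poly f)
    (hi : NPC.Poly i) (hj : NPC.Poly j) : NPC.Poly (fun a => decide (adj (f a) (i a) (j a))) := by
  have h3 : NPC.Poly (fun a => 3 * j a) := NPC.Poly.mul (NPC.Poly.const 3) hj
  refine (NPC.Poly.decide_or (NPC.Poly.decide_le (NPC.Poly.length hf) hj)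
    (NPC.Poly.decide_or (NPC.Poly.decide_eq hi (pos_poly hf h3))
    (NPC.Poly.decide_or (NPC.Poly.decide_eq hi (pos_poly hf (NPC.Poly.add h3 (NPC.Poly.const 1))))
      (NPC.Poly.decide_eq hi (pos_poly hf (NPC.Poly.add h3 (NPC.Poly.const 2))))))).congr ?_
  intro a
  rw [decide_eq_decide]
  exact Iff.rfl

theorem lin_poly {α : Type} [TEnc α] {i : α → ℕ} (hi : NPC.Poly i) (c : ℕ) :
    NPC.Poly (fun a => 7 * i a + c) :=
  NPC.Poly.add (NPC.Poly.mul (NPC.Poly.const 7) hi) (NPC.Poly.const c)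

theorem lin0_poly {α : Type} [TEnc α] {i : α → ℕ} (hi : NPC.Poly i) :
    NPC.Poly (fun a => 7 * i a) := NPC.Poly.mul (NPC.Poly.const 7) hi

theorem list1_poly {α β : Type} [TEnc α] [TEnc β] {x : α → β} (hx : NPC.Poly x) :
    NPC.Poly (fun a => [x a]) := NPC.Poly.cons hx (NPC.Poly.const [])

theorem list2_poly {α β : Type} [TEnc α] [TEnc β] {x y : α → β} (hx : NPC.Poly x)
    (hy : NPC.Poly y) : NPC.Poly (fun a => [x a, y a]) :=
  NPC.Poly.cons hx (list1_poly hy)

theorem edgesAt_poly {α : Type} [TEnc α] {f : α → F3} {i : α → ℕ} (hf : NPC.Poly f)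
    (hi : NPC.Poly i) : NPC.Poly (fun a => edgesAt (f a) (i a)) := by
  unfold edgesAt
  refine NPC.Poly.append ?_ (NPC.Poly.append ?_ (NPC.Poly.append ?_ ?_))
  · exact NPC.Poly.ite (NPC.Poly.decide_eq (NPC.Poly.mod hi (NPC.Poly.const 2)) (NPC.Poly.const 0))
      (list1_poly (NPC.Poly.pair (lin0_poly hi) (lin_poly hi 2)))
      (list2_poly (NPC.Poly.pair (lin0_poly hi) (lin_poly hi 1))
        (NPC.Poly.pair (lin_poly hi 1) (lin_poly hi 2)))
  · exact list2_poly (NPC.Poly.pair (lin_poly hi 2) (lin_poly hi 3))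
      (NPC.Poly.pair (lin_poly hi 2) (lin_poly (nxt_poly (M_upoly hf).toPoly hi) 3))
  · exact NPC.Poly.ite (NPC.Poly.decide_lt hi (MM_upoly hf).toPoly)
      (list2_poly (NPC.Poly.pair (lin_poly hi 4) (lin_poly hi 5))
        (NPC.Poly.pair (lin_poly hi 5) (lin_poly hi 6)))
      (list1_poly (NPC.Poly.pair (lin_poly hi 4) (lin_poly hi 6)))
  · refine NPC.Poly.map (F := fun a (j : ℕ) => (7 * i a + 3, 7 * j + 4)) ?_ ?_
    · refine NPC.Poly.filter (p := fun a (j : ℕ) => decide (adj (f a) (i a) j))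
        (T_upoly hf).range ?_
      exact adj_poly (hf.comp (NPC.Poly.fst NPC.Poly.id)) (hi.comp (NPC.Poly.fst NPC.Poly.id))
        (NPC.Poly.snd NPC.Poly.id)
    · exact NPC.Poly.pair (lin_poly (hi.comp (NPC.Poly.fst NPC.Poly.id)) 3)
        (lin_poly (NPC.Poly.snd NPC.Poly.id) 4)

theorem edges_poly : NPC.Poly edges := by
  unfold edges
  exact NPC.Poly.flatMap (F := fun (φ : F3) (i : ℕ) => edgesAt φ i)
    (T_upoly (f := fun φ : F3 => φ) NPC.Poly.id).range
    (edgesAt_poly (NPC.Poly.fst NPC.Poly.id) (NPC.Poly.snd NPC.Poly.id))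

theorem red_poly : NPC.Poly red := by
  unfold red
  have hT : UPoly T := T_upoly (f := fun φ : F3 => φ) NPC.Poly.id
  refine NPC.Poly.pair (NPC.Poly.pair ?_ edges_poly) (NPC.Poly.pair hT.toPoly
    (NPC.Poly.pair ?_ ?_))
  · exact (UPoly.mul (UPoly.const 7) hT).range
  · exact NPC.Poly.map (F := fun (_ : F3) (i : ℕ) => 7 * i) hT.range
      (lin0_poly (NPC.Poly.snd NPC.Poly.id))
  · exact NPC.Poly.map (F := fun (_ : F3) (i : ℕ) => 7 * i + 6) hT.range
      (lin_poly (NPC.Poly.snd NPC.Poly.id) 6)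

/-- ODD-PATHS is `NP`-hard. -/
theorem hardI_oddPaths : HardI OddPaths :=
  ((hardPr_SAT3b.trans (Pr' := fun _ => True) (Q := OddPaths) red_poly (fun _ _ => trivial)
    (fun φ h => (red_iff h.2.2 h.2.1).1))).toHardI

/-- The variant with disjoint paths is `NP`-hard. -/
theorem hardI_disjointOddPaths : HardI DisjointOddPaths :=
  ((hardPr_SAT3b.trans (Pr' := fun _ => True) (Q := DisjointOddPaths) red_poly
    (fun _ _ => trivial) (fun φ h => (red_iff h.2.2 h.2.1).2))).toHardI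

end Pool.Agent.Y592.OP
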